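import Pool.Agent.Lib_helper91.CMC2.Local

/-!
# Divergence form of the Laplacian of the induced metric
-/

open scoped Manifold ContDiff Topology

namespace Pool.Agent.Lib_helper25.DA

open Pool.Agent.Lib_helper91.CMC2

/-- Jacobi's formula (proof of helper71, BH/Geo2.lean). -/
theorem hasFDerivAt_det {X : Type*} [NormedAddCommGroup X] [NormedSpace ℝ X] {n : Type*}
    [Fintype n] [DecidableEq n] (A : X → Matrix n n ℝ) (A' : n → n → X →L[ℝ] ℝ) (x : X)
    (h : ∀ i j, HasFDerivAt (fun y => A y i j) (A' i j) x) :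
    HasFDerivAt (fun y => (A y).det) (∑ i, ∑ k, ((A x).adjugate i k) • A' k i) x := by
  have h1 : HasFDerivAt (fun y => (A y).det)
      (∑ σ : Equiv.Perm n, ((Equiv.Perm.sign σ : ℤ) : ℝ) •
        ∑ i : n, (∏ j ∈ Finset.univ.erase i, A x (σ j) j) • A' (σ i) i) x := by
    have h2 : (fun y => (A y).det) = fun y => ∑ σ : Equiv.Perm n,
        ((Equiv.Perm.sign σ : ℤ) : ℝ) • ∏ i, A y (σ i) i := by
      funext y
      rw [Matrix.det_apply']
      rfl
    rw [h2]
    apply HasFDerivAt.fun_sum
    intro σ _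
    exact (HasFDerivAt.finsetProd (fun i _ => h (σ i) i)).const_smul
      ((Equiv.Perm.sign σ : ℤ) : ℝ)
  refine h1.congr_fderiv ?_
  ext v
  simp only [_root_.sum_apply, _root_.smul_apply, smul_eq_mul]
  have h3 : ∀ i, ∑ k, (A x).adjugate i k * A' k i v =
      ((A x).updateCol i (fun k => A' k i v)).det := by
    intro i
    rw [← Matrix.cramer_apply, Matrix.cramer_eq_adjugate_mulVec]
    rfl
  rw [Finset.sum_congr rfl (fun i _ => h3 i)]
  simp only [Finset.mul_sum]
  rw [Finset.sum_comm]
  refine Finset.sum_congr rfl fun i _ => ?_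
  rw [Matrix.det_apply']
  refine Finset.sum_congr rfl fun σ _ => ?_
  congr 1
  rw [← Finset.mul_prod_erase Finset.univ _ (Finset.mem_univ i)]
  rw [mul_comm]
  congr 1
  · simp
  · refine Finset.prod_congr rfl fun j hj => ?_
    rw [Matrix.updateCol_ne (Finset.ne_of_mem_erase hj)]

section smooth
variable {n : ℕ} {k : ℕ}

lemma det_smooth {A : E n → Matrix (Fin k) (Fin k) ℝ} {z : E n}
    (h : ∀ i j, ContDiffAt ℝ ∞ (fun w => A w i j) z) : ContDiffAt ℝ ∞ (fun w => (A w).det) z := by
  have h2 : (fun y => (A y).det) = fun y => ∑ σ : Equiv.Perm (Fin k),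
      ((Equiv.Perm.sign σ : ℤ) : ℝ) * ∏ i, A y (σ i) i := by
    funext y
    rw [Matrix.det_apply']
  rw [h2]
  refine ContDiffAt.sum fun σ _ => ?_
  exact contDiffAt_const.mul (contDiffAt_prod fun i _ => h _ _)

lemma adj_smooth {A : E n → Matrix (Fin k) (Fin k) ℝ} {z : E n}
    (h : ∀ i j, ContDiffAt ℝ ∞ (fun w => A w i j) z) (a b : Fin k) :
    ContDiffAt ℝ ∞ (fun w => (A w).adjugate a b) z := by
  simp only [Matrix.adjugate_apply]
  refine det_smooth fun i j => ?_
  by_cases hi : i = b
  · subst hi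
    simp only [Matrix.updateRow_self]
    exact contDiffAt_const
  · simp only [Matrix.updateRow_ne hi]
    exact h i j

lemma inv_smooth {A : E n → Matrix (Fin k) (Fin k) ℝ} {z : E n}
    (h : ∀ i j, ContDiffAt ℝ ∞ (fun w => A w i j) z) (hd : (A z).det ≠ 0) (a b : Fin k) :
    ContDiffAt ℝ ∞ (fun w => (A w)⁻¹ a b) z := by
  have h2 : (fun w => (A w)⁻¹ a b) = fun w => ((A w).det)⁻¹ * (A w).adjugate a b := by
    funext w
    rw [Matrix.inv_def, Matrix.smul_apply, smul_eq_mul, Ring.inverse_eq_inv']
  rw [h2]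
  exact ((det_smooth h).inv hd).mul (adj_smooth h a b)

end smooth

section metric
variable {n m : ℕ} {X : E n → E m} {z : E n}

lemma metric_smooth (hX : ContDiffAt ℝ ∞ X z) (i j : Fin n) :
    ContDiffAt ℝ ∞ (fun w => metric X w i j) z := by
  unfold metric
  exact (pd_smooth hX i).inner ℝ (pd_smooth hX j)

lemma metric_posDef (h : Function.Injective (fderiv ℝ X z)) : (metric X z).PosDef := by
  refine Matrix.PosDef.of_dotProduct_mulVec_pos ?_ ?_
  · ext i j
    simp [metric, Matrix.conjTranspose_apply, real_inner_comm]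
  · intro v hv
    set v' : E n := WithLp.toLp 2 v with hv'
    have hq := metric_quad X z v'
    have h1 : star v ⬝ᵥ ((metric X z).mulVec v) = ∑ i, ∑ j, v' i * metric X z i j * v' j := by
      simp only [dotProduct, Matrix.mulVec, Pi.star_apply, star_trivial, hv']
      refine Finset.sum_congr rfl fun i _ => ?_
      rw [Finset.mul_sum]
      refine Finset.sum_congr rfl fun j _ => by ring
    rw [h1, hq]
    have h2 : fderiv ℝ X z v' ≠ 0 := by
      intro h0
      have : v' = 0 := h (by rw [h0, map_zero])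
      apply hv
      have h3 := congrArg (fun w : E n => w.ofLp) this
      simpa [hv'] using h3
    have := norm_pos_iff.2 h2
    positivity

lemma det_pos (h : Function.Injective (fderiv ℝ X z)) : 0 < (metric X z).det :=
  (metric_posDef h).det_pos

/-- the Riemannian density -/
noncomputable def rho (X : E n → E m) (z : E n) : ℝ := √((metric X z).det)

lemma rho_pos (h : Function.Injective (fderiv ℝ X z)) : 0 < rho X z :=
  Real.sqrt_pos.2 (det_pos h)

lemma rho_smooth (hX : ContDiffAt ℝ ∞ X z) (h : Function.Injective (fderiv ℝ X z)) :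
    ContDiffAt ℝ ∞ (rho X) z := by
  unfold rho
  exact (det_smooth fun i j => metric_smooth hX i j).sqrt (det_pos h).ne'

lemma ginv_smooth (hX : ContDiffAt ℝ ∞ X z) (h : Function.Injective (fderiv ℝ X z))
    (a b : Fin n) : ContDiffAt ℝ ∞ (fun w => (metric X w)⁻¹ a b) z :=
  inv_smooth (fun i j => metric_smooth hX i j) (det_pos h).ne' a b

/-- injectivity of the differential is an open condition -/
lemma inj_nhds (hX : ContDiffAt ℝ ∞ X z) (h : Function.Injective (fderiv ℝ X z)) :
    ∀ᶠ w in 𝓝 z, (metric X w).det ≠ 0 :=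
  (det_smooth fun i j => metric_smooth hX i j).continuousAt.eventually_ne (det_pos h).ne'

/-- derivative of the density -/
lemma pd_rho (hX : ContDiffAt ℝ ∞ X z) (h : Function.Injective (fderiv ℝ X z)) (i : Fin n) :
    pd i (rho X) z = rho X z * ∑ a, ∑ b, (metric X z)⁻¹ a b *
      inner ℝ (pd i (pd a X) z) (pd b X z) := by
  have hg : ∀ a b, HasFDerivAt (fun w => metric X w a b)
      (fderiv ℝ (fun w => metric X w a b) z) z := fun a b =>
    (diff_of (metric_smooth hX a b)).hasFDerivAt
  have hdet := hasFDerivAt_det (metric X) (fun a b => fderiv ℝ (fun w => metric X w a b) z) z hg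
  have hpos := det_pos h
  have hsq := hdet.sqrt hpos.ne'
  have hadj : ∀ i k, (metric X z).adjugate i k = (metric X z).det * (metric X z)⁻¹ i k := by
    intro i k
    rw [Matrix.inv_def, Matrix.smul_apply, smul_eq_mul, Ring.inverse_eq_inv', ← mul_assoc,
      mul_inv_cancel₀ hpos.ne', one_mul]
  unfold pd rho
  rw [hsq.fderiv, _root_.smul_apply]
  simp only [_root_.sum_apply, _root_.smul_apply, smul_eq_mul, hadj]
  have e1 : ∀ a b : Fin n, fderiv ℝ (fun w => metric X w b a) z (EuclideanSpace.single i 1) =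
      inner ℝ (pd b X z) (pd i (pd a X) z) + inner ℝ (pd i (pd b X) z) (pd a X z) := fun a b =>
    pd_metric hX i b a
  simp only [e1]
  set Q := ∑ a, ∑ b, (metric X z)⁻¹ a b * inner ℝ (pd i (pd a X) z) (pd b X z) with hQ
  have e2 : ∑ a, ∑ b, (metric X z).det * (metric X z)⁻¹ a b *
      (inner ℝ (pd b X z) (pd i (pd a X) z) + inner ℝ (pd i (pd b X) z) (pd a X z)) =
      (metric X z).det * (2 * Q) := by
    have e3 : Q = ∑ a, ∑ b, (metric X z)⁻¹ a b * inner ℝ (pd i (pd b X) z) (pd a X z) := by
      rw [hQ, Finset.sum_comm]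
      refine Finset.sum_congr rfl fun a _ => Finset.sum_congr rfl fun b _ => ?_
      rw [inv_symm]
    have e4 : (2 : ℝ) * Q = Q + ∑ a, ∑ b, (metric X z)⁻¹ a b *
        inner ℝ (pd i (pd b X) z) (pd a X z) := by rw [← e3]; ring
    rw [e4, hQ, ← Finset.sum_add_distrib, Finset.mul_sum]
    refine Finset.sum_congr rfl fun a _ => ?_
    rw [← Finset.sum_add_distrib, Finset.mul_sum]
    refine Finset.sum_congr rfl fun b _ => ?_
    rw [real_inner_comm (pd b X z)]
    ring
  rw [e2]
  have h2 : √(metric X z).det ≠ 0 := (Real.sqrt_pos.2 hpos).ne'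
  have h3 : √(metric X z).det * √(metric X z).det = (metric X z).det :=
    Real.mul_self_sqrt hpos.le
  rw [one_div, ← h3]
  have h4 : √(√(metric X z).det * √(metric X z).det) = √(metric X z).det :=
    Real.sqrt_mul_self (Real.sqrt_nonneg _)
  rw [h4]
  field_simp
  rfl

/-- derivative of the inverse metric, contracted -/
lemma pd_ginv (hX : ContDiffAt ℝ ∞ X z) (h : Function.Injective (fderiv ℝ X z))
    (i a b : Fin n) :
    pd i (fun w => (metric X w)⁻¹ a b) z = -∑ c, ∑ d, (metric X z)⁻¹ a c *
      (inner ℝ (pd c X z) (pd i (pd d X) z) + inner ℝ (pd i (pd c X) z) (pd d X z)) *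
        (metric X z)⁻¹ d b := by
  -- differentiate `∑ d, g^{ad} g_{dc} = δ_{ac}`
  have h1 : ∀ c, ∑ d, (pd i (fun w => (metric X w)⁻¹ a d) z * metric X z d c
      + (metric X z)⁻¹ a d * pd i (fun w => metric X w d c) z) = 0 := by
    intro c
    have h2 : (fun w => ∑ d, (metric X w)⁻¹ a d * metric X w d c) =ᶠ[𝓝 z]
        fun _ => if a = c then (1 : ℝ) else 0 := by
      filter_upwards [inj_nhds hX h] with w hw
      have := Matrix.nonsing_inv_mul (metric X w) (isUnit_iff_ne_zero.2 hw)
      have h3 := congrFun (congrFun this a) c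
      rw [Matrix.mul_apply, Matrix.one_apply] at h3
      exact h3
    have h3 := pd_congr h2 i
    rw [pd_const] at h3
    have h4 : HasFDerivAt (fun w => ∑ d, (metric X w)⁻¹ a d * metric X w d c)
        (∑ d, ((metric X z)⁻¹ a d • fderiv ℝ (fun w => metric X w d c) z
          + metric X z d c • fderiv ℝ (fun w => (metric X w)⁻¹ a d) z)) z := by
      apply HasFDerivAt.fun_sum
      intro d _
      exact (diff_of (ginv_smooth hX h a d)).hasFDerivAt.mul
        (diff_of (metric_smooth hX d c)).hasFDerivAt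
    unfold pd at h3 ⊢
    rw [h4.fderiv] at h3
    simp only [_root_.sum_apply, _root_.add_apply, _root_.smul_apply, smul_eq_mul] at h3
    rw [← h3]
    refine Finset.sum_congr rfl fun d _ => by ring
  -- solve
  have h5 : pd i (fun w => (metric X w)⁻¹ a b) z =
      ∑ d, pd i (fun w => (metric X w)⁻¹ a d) z * ∑ c, metric X z d c * (metric X z)⁻¹ c b := by
    have : ∀ d, ∑ c, metric X z d c * (metric X z)⁻¹ c b = if d = b then 1 else 0 :=
      fun d => metric_mul_inv h d b
    simp only [this]
    simp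
  rw [h5]
  have h6 : ∀ c, ∑ d, pd i (fun w => (metric X w)⁻¹ a d) z * metric X z d c =
      -∑ d, (metric X z)⁻¹ a d * pd i (fun w => metric X w d c) z := by
    intro c
    have := h1 c
    rw [Finset.sum_add_distrib] at this
    linarith
  calc ∑ d, pd i (fun w => (metric X w)⁻¹ a d) z * ∑ c, metric X z d c * (metric X z)⁻¹ c b
      = ∑ c, (∑ d, pd i (fun w => (metric X w)⁻¹ a d) z * metric X z d c)
          * (metric X z)⁻¹ c b := by
        simp only [Finset.mul_sum, Finset.sum_mul]
        rw [Finset.sum_comm]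
        refine Finset.sum_congr rfl fun c _ => Finset.sum_congr rfl fun d _ => by ring
    _ = -∑ c, ∑ d, (metric X z)⁻¹ a d * pd i (fun w => metric X w d c) z
          * (metric X z)⁻¹ c b := by
        simp only [h6]
        rw [← Finset.sum_neg_distrib]
        refine Finset.sum_congr rfl fun c _ => ?_
        rw [neg_mul, Finset.sum_mul]
    _ = _ := by
        congr 1
        rw [Finset.sum_comm]
        refine Finset.sum_congr rfl fun c _ => Finset.sum_congr rfl fun d _ => ?_
        rw [pd_metric hX]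

/-- the gradient in coordinates -/
noncomputable def grad (X : E n → E m) (F : E n → ℝ) (i : Fin n) (z : E n) : ℝ :=
  ∑ j, (metric X z)⁻¹ i j * pd j F z

lemma grad_smooth (hX : ContDiffAt ℝ ∞ X z) (h : Function.Injective (fderiv ℝ X z))
    {F : E n → ℝ} (hF : ContDiffAt ℝ ∞ F z) (i : Fin n) : ContDiffAt ℝ ∞ (grad X F i) z := by
  unfold grad
  exact ContDiffAt.sum fun j _ => (ginv_smooth hX h i j).mul (pd_smooth hF j)

lemma pd_mul {F G : E n → ℝ} (hF : DifferentiableAt ℝ F z) (hG : DifferentiableAt ℝ G z)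
    (i : Fin n) : pd i (fun w => F w * G w) z = F z * pd i G z + pd i F z * G z := by
  unfold pd
  rw [fderiv_fun_mul hF hG]
  simp only [_root_.add_apply, _root_.smul_apply, smul_eq_mul]
  ring

lemma pd_sum {ι : Type*} {s : Finset ι} {F : ι → E n → ℝ}
    (hF : ∀ j ∈ s, DifferentiableAt ℝ (F j) z) (i : Fin n) :
    pd i (fun w => ∑ j ∈ s, F j w) z = ∑ j ∈ s, pd i (F j) z := by
  unfold pd
  rw [fderiv_fun_sum hF]
  simp

/-- divergence form of the Laplacian -/
theorem div_form (hX : ContDiffAt ℝ ∞ X z) (h : Function.Injective (fderiv ℝ X z))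
    {F : E n → ℝ} (hF : ContDiffAt ℝ ∞ F z) :
    ∑ i, pd i (fun w => rho X w * grad X F i w) z = -(rho X z * lap X F z) := by
  have h1 : ∀ i, pd i (fun w => rho X w * grad X F i w) z =
      rho X z * (∑ j, ((metric X z)⁻¹ i j * pd i (pd j F) z
        + pd i (fun w => (metric X w)⁻¹ i j) z * pd j F z)) + pd i (rho X) z * grad X F i z := by
    intro i
    rw [pd_mul (diff_of (rho_smooth hX h)) (diff_of (grad_smooth hX h hF i))]
    congr 2
    unfold grad
    rw [pd_sum fun j _ => diff_of ((ginv_smooth hX h i j).mul (pd_smooth hF j))]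
    refine Finset.sum_congr rfl fun j _ => ?_
    rw [pd_mul (diff_of (ginv_smooth hX h i j)) (diff_of (pd_smooth hF j))]
  simp only [h1, pd_rho hX h, pd_ginv hX h]
  unfold lap grad
  simp only [smul_eq_mul, christoffel_eq hX]
  have h2 : ∀ A B C D : ℝ, A + B = C → D * A + D * B = -(D * -C) := by
    intro A B C D h; rw [← h]; ring
  rw [Finset.sum_add_distrib, ← Finset.mul_sum]
  simp only [mul_assoc (rho X z)]
  rw [← Finset.mul_sum]
  refine h2 _ _ _ _ ?_
  -- split the sums
  set g := (metric X z)⁻¹ with hg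
  set b : Fin n → Fin n → Fin n → ℝ := fun i j k => inner ℝ (pd i (pd j X) z) (pd k X z) with hb
  have hbs : ∀ i j k, b i j k = b j i k := fun i j k => by simp only [hb]; rw [pd_comm hX]
  have hgs : ∀ i j, g i j = g j i := fun i j => inv_symm X z i j
  have e0 : ∀ i c d : Fin n, inner ℝ (pd c X z) (pd i (pd d X) z)
      + inner ℝ (pd i (pd c X) z) (pd d X z) = b i d c + b i c d := fun i c d => by
    simp only [hb]; rw [real_inner_comm]
  simp only [e0]
  have e1 : ∀ i j k : Fin n, inner ℝ (pd i (pd j X) z) (pd k X z) = b i j k := fun _ _ _ => rfl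
  simp only [e1]
  set f : Fin n → ℝ := fun j => pd j F z with hf
  have e2 : ∀ j, pd j F z = f j := fun _ => rfl
  simp only [e2]
  clear_value g b f
  -- pure algebra
  have k1 : ∑ i, ∑ j, (g i j * pd i (pd j F) z +
      (-∑ c, ∑ d, g i c * (b i d c + b i c d) * g d j) * f j) =
      ∑ i, ∑ j, g i j * pd i (pd j F) z
        - ∑ i, ∑ j, ∑ c, ∑ d, g i c * b i d c * g d j * f j
        - ∑ i, ∑ j, ∑ c, ∑ d, g i c * b i c d * g d j * f j := by
    rw [← Finset.sum_sub_distrib, ← Finset.sum_sub_distrib]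
    refine Finset.sum_congr rfl fun i _ => ?_
    rw [← Finset.sum_sub_distrib, ← Finset.sum_sub_distrib]
    refine Finset.sum_congr rfl fun j _ => ?_
    have : (-∑ c, ∑ d, g i c * (b i d c + b i c d) * g d j) * f j =
        -(∑ c, ∑ d, g i c * b i d c * g d j * f j) - ∑ c, ∑ d, g i c * b i c d * g d j * f j := by
      rw [neg_mul, Finset.sum_mul, ← Finset.sum_neg_distrib, ← Finset.sum_neg_distrib,
        ← Finset.sum_sub_distrib]
      refine Finset.sum_congr rfl fun c _ => ?_
      rw [Finset.sum_mul, ← Finset.sum_neg_distrib, ← Finset.sum_neg_distrib,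
        ← Finset.sum_sub_distrib]
      refine Finset.sum_congr rfl fun d _ => by ring
    rw [this]
    ring
  have k2 : ∑ i, (∑ a, ∑ c, g a c * b i a c) * ∑ j, g i j * f j =
      ∑ i, ∑ j, ∑ c, ∑ d, g i c * b i d c * g d j * f j := by
    -- both are `∑ g_{ac} b_{dac} g_{dj} f_j`
    calc ∑ i, (∑ a, ∑ c, g a c * b i a c) * ∑ j, g i j * f j
        = ∑ i, ∑ a, ∑ c, ∑ j, g a c * b i a c * (g i j * f j) := by
          refine Finset.sum_congr rfl fun i _ => ?_
          rw [Finset.sum_mul]
          refine Finset.sum_congr rfl fun a _ => ?_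
          rw [Finset.sum_mul]
          refine Finset.sum_congr rfl fun c _ => ?_
          rw [Finset.mul_sum]
      _ = ∑ a, ∑ i, ∑ c, ∑ j, g a c * b i a c * (g i j * f j) := Finset.sum_comm
      _ = ∑ a, ∑ j, ∑ c, ∑ i, g a c * b i a c * (g i j * f j) := by
          refine Finset.sum_congr rfl fun a _ => ?_
          have : ∑ i, ∑ c, ∑ j, g a c * b i a c * (g i j * f j) =
              ∑ i, ∑ j, ∑ c, g a c * b i a c * (g i j * f j) :=
            Finset.sum_congr rfl fun i _ => Finset.sum_comm
          rw [this, Finset.sum_comm]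
          exact Finset.sum_congr rfl fun j _ => Finset.sum_comm
      _ = _ := by
          refine Finset.sum_congr rfl fun i _ => Finset.sum_congr rfl fun j _ =>
            Finset.sum_congr rfl fun c _ => Finset.sum_congr rfl fun d _ => ?_
          rw [hbs d i c]
          ring
  have k3 : ∑ i, ∑ j, g i j * (pd i (pd j F) z - ∑ k, (∑ l, g k l * b i j l) * f k) =
      ∑ i, ∑ j, g i j * pd i (pd j F) z
        - ∑ i, ∑ j, ∑ c, ∑ d, g i c * b i c d * g d j * f j := by
    rw [← Finset.sum_sub_distrib]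
    refine Finset.sum_congr rfl fun i _ => ?_
    have : ∑ j, ∑ c, ∑ d, g i c * b i c d * g d j * f j =
        ∑ c, g i c * ∑ k, (∑ l, g k l * b i c l) * f k := by
      rw [Finset.sum_comm]
      refine Finset.sum_congr rfl fun c _ => ?_
      rw [Finset.mul_sum]
      refine Finset.sum_congr rfl fun k _ => ?_
      rw [Finset.sum_mul, Finset.mul_sum]
      refine Finset.sum_congr rfl fun l _ => ?_
      rw [hgs l k]
      ring
    rw [this, ← Finset.sum_sub_distrib]
    refine Finset.sum_congr rfl fun j _ => by ring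
  rw [k1, k3]
  have k4 : ∑ i, (∑ a, ∑ c, g a c * b i a c) * ∑ j, g i j * f j =
      ∑ i, (∑ a, ∑ c, g a c * b i a c) * (∑ j, g i j * f j) := rfl
  linarith [k2]

end metric

end Pool.Agent.Lib_helper25.DA
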