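import Pool.Agent.Lib_helper25.DA.Glob

/-!
# The Laplacians of `|x - c|²` and `⟨x - c, Δx⟩`
-/

open scoped Manifold ContDiff Topology
open MeasureTheory Set

namespace Pool.Agent.Lib_helper25.DA

open Pool.Agent.Lib_helper91.CMC2

section
variable {n m k : ℕ} {X : E n → E m} {z : E n}

/-- product rule for the Laplacian -/
lemma lap_inner {F G : E n → E k} (hF : ContDiffAt ℝ ∞ F z)
    (hG : ContDiffAt ℝ ∞ G z) :
    lap X (fun w => (inner ℝ (F w) (G w) : ℝ)) z = inner ℝ (F z) (lap X G z)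
      + inner ℝ (lap X F z) (G z)
      - 2 * ∑ i, ∑ j, (metric X z)⁻¹ i j * inner ℝ (pd i F z) (pd j G z) := by
  have e1 : ∀ j, pd j (fun w => (inner ℝ (F w) (G w) : ℝ)) =ᶠ[𝓝 z]
      fun w => inner ℝ (F w) (pd j G w) + inner ℝ (pd j F w) (G w) := fun j => by
    filter_upwards [diff_eventually hF, diff_eventually hG] with w hw hw'
    exact pd_inner hw hw' j
  have e2 : ∀ i j, pd i (pd j (fun w => (inner ℝ (F w) (G w) : ℝ))) z =
      inner ℝ (F z) (pd i (pd j G) z) + inner ℝ (pd i F z) (pd j G z)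
      + (inner ℝ (pd j F z) (pd i G z) + inner ℝ (pd i (pd j F) z) (G z)) := fun i j => by
    rw [pd_congr (e1 j) i, pd_add
      (diff_of (hF.inner ℝ (pd_smooth hG j))) (diff_of ((pd_smooth hF j).inner ℝ hG)),
      pd_inner (diff_of hF) (diff_of (pd_smooth hG j)),
      pd_inner (diff_of (pd_smooth hF j)) (diff_of hG)]
  unfold lap
  simp only [e2, pd_inner (diff_of hF) (diff_of hG), smul_eq_mul]
  simp only [inner_neg_left, inner_neg_right, inner_sum, sum_inner, real_inner_smul_left,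
    real_inner_smul_right, inner_sub_left, inner_sub_right]
  have sw : ∑ i, ∑ j, (metric X z)⁻¹ i j * inner ℝ (pd j F z) (pd i G z) =
      ∑ i, ∑ j, (metric X z)⁻¹ i j * (inner ℝ (pd i F z) (pd j G z) : ℝ) := by
    rw [Finset.sum_comm]
    refine Finset.sum_congr rfl fun i _ => Finset.sum_congr rfl fun j _ => ?_
    rw [inv_symm]
  have e3 : ∀ i j, (metric X z)⁻¹ i j * (inner ℝ (F z) (pd i (pd j G) z)
      + inner ℝ (pd i F z) (pd j G z)
      + (inner ℝ (pd j F z) (pd i G z) + inner ℝ (pd i (pd j F) z) (G z))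
      - ∑ k, christoffel X z i j k * (inner ℝ (F z) (pd k G z) + inner ℝ (pd k F z) (G z))) =
      (metric X z)⁻¹ i j * (inner ℝ (F z) (pd i (pd j G) z)
        - ∑ k, christoffel X z i j k * inner ℝ (F z) (pd k G z))
      + (metric X z)⁻¹ i j * (inner ℝ (pd i (pd j F) z) (G z)
        - ∑ k, christoffel X z i j k * inner ℝ (pd k F z) (G z))
      + (metric X z)⁻¹ i j * inner ℝ (pd i F z) (pd j G z)
      + (metric X z)⁻¹ i j * inner ℝ (pd j F z) (pd i G z) := by
    intro i j
    simp only [mul_add, Finset.sum_add_distrib, mul_sub]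
    ring
  simp only [e3, Finset.sum_add_distrib]
  rw [sw]
  ring

lemma trace_metric (h : Function.Injective (fderiv ℝ X z)) :
    ∑ i, ∑ j, (metric X z)⁻¹ i j * inner ℝ (pd i X z) (pd j X z) = (n : ℝ) := by
  have h1 : ∀ i, ∑ j, (metric X z)⁻¹ i j * inner ℝ (pd i X z) (pd j X z) = (1 : ℝ) := by
    intro i
    have := inv_mul_metric h i i
    rw [if_pos rfl] at this
    rw [← this]
    refine Finset.sum_congr rfl fun j _ => ?_
    unfold metric
    rw [real_inner_comm]
  simp only [h1]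
  simp

end

namespace LDX
variable {n m : ℕ} {T : Set (E n)} {X X1 X2 : E n → E m} {c : E m} {l1 l2 N0 : ℝ}
  {z : E n}

open LD

/-- `∑ g^{ij} ⟨∂_i X, ∂_j y⟩ = |y|²` -/
lemma trace_y (h : LD T X X1 X2 c l1 l2 N0) (hz : z ∈ T) :
    ∑ i, ∑ j, (metric X z)⁻¹ i j * inner ℝ (pd i X z) (pd j (yv l1 l2 X1 X2) z) = N0 ^ 2 := by
  have e1 : ∀ i j, inner ℝ (yv l1 l2 X1 X2 z) (pd i (pd j X) z)
      + inner ℝ (pd i (yv l1 l2 X1 X2) z) (pd j X z) = (0 : ℝ) := by
    intro i j
    have h1 : (fun w => inner ℝ (yv l1 l2 X1 X2 w) (pd j X w)) =ᶠ[𝓝 z] fun _ => (0 : ℝ) := by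
      filter_upwards [h.op.mem_nhds hz] with w hw using h.inner_y_X hw j
    have h2 := pd_congr h1 i
    rw [pd_const, pd_inner (diff_of (h.sy hz)) (diff_of (pd_smooth (h.sX hz) j))] at h2
    exact h2
  have e2 := h.normy hz
  rw [← e2]
  conv_rhs => rw [← h.lapX hz]
  have e3 : inner ℝ (lap X X z) (lap X X z) = inner ℝ (yv l1 l2 X1 X2 z) (lap X X z) := by
    rw [h.lapX hz]
  rw [e3]
  unfold lap
  rw [inner_neg_right, inner_sum, ← Finset.sum_neg_distrib, Finset.sum_comm]
  refine Finset.sum_congr rfl fun i _ => ?_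
  rw [inner_sum, ← Finset.sum_neg_distrib]
  refine Finset.sum_congr rfl fun j _ => ?_
  rw [real_inner_smul_right, inner_sub_right, inner_sum]
  have e4 : ∑ k, inner ℝ (yv l1 l2 X1 X2 z) (christoffel X z i j k • pd k X z) = (0 : ℝ) :=
    Finset.sum_eq_zero fun k _ => by rw [real_inner_smul_right, h.inner_y_X hz k, mul_zero]
  rw [e4, inv_symm X z j i, real_inner_comm]
  have := e1 i j
  linear_combination ((metric X z)⁻¹ i j) * this

/-- the functions `|x - c|²` and `⟨x - c, y⟩` -/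
lemma lap_u (h : LD T X X1 X2 c l1 l2 N0) (hz : z ∈ T) :
    lap X (fun w => (inner ℝ (X w - c) (X w - c) : ℝ)) z =
      2 * inner ℝ (X z - c) (yv l1 l2 X1 X2 z) - 2 * n := by
  have hs : ContDiffAt ℝ ∞ (fun w => X w - c) z := (h.sX hz).sub contDiffAt_const
  have e1 : ∀ i, pd i (fun w => X w - c) z = pd i X z := fun i => by
    unfold pd
    rw [fderiv_sub_const]
  have e2 : lap X (fun w => X w - c) z = yv l1 l2 X1 X2 z := by
    have : (fun w => X w - c) = fun w => X w + (-c) := by funext w; rw [sub_eq_add_neg]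
    rw [this, lap_add (h.sX hz) contDiffAt_const, lap_const, add_zero, h.lapX hz]
  rw [lap_inner hs hs, e2]
  simp only [e1]
  rw [trace_metric (h.imm z hz), real_inner_comm (X z - c)]
  ring

lemma lap_v (h : LD T X X1 X2 c l1 l2 N0) (hz : z ∈ T) :
    lap X (fun w => (inner ℝ (X w - c) (yv l1 l2 X1 X2 w) : ℝ)) z =
      (l1 + l2) * inner ℝ (X z - c) (yv l1 l2 X1 X2 z)
        - l1 * l2 * inner ℝ (X z - c) (X z - c) - N0 ^ 2 := by
  have hs : ContDiffAt ℝ ∞ (fun w => X w - c) z := (h.sX hz).sub contDiffAt_const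
  have e1 : ∀ i, pd i (fun w => X w - c) z = pd i X z := fun i => by
    unfold pd
    rw [fderiv_sub_const]
  have e2 : lap X (fun w => X w - c) z = yv l1 l2 X1 X2 z := by
    have : (fun w => X w - c) = fun w => X w + (-c) := by funext w; rw [sub_eq_add_neg]
    rw [this, lap_add (h.sX hz) contDiffAt_const, lap_const, add_zero, h.lapX hz]
  have e3 : lap X (yv l1 l2 X1 X2) z = (l1 + l2) • yv l1 l2 X1 X2 z
      - (l1 * l2) • (X z - c) := by
    rw [h.lapy hz, h.dec z hz]
    unfold yv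
    module
  rw [lap_inner hs (h.sy hz), e2, e3]
  simp only [e1]
  rw [trace_y h hz, h.normy hz, inner_sub_right, real_inner_smul_right, real_inner_smul_right]
  ring

end LDX

end Pool.Agent.Lib_helper25.DA
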