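import Pool.Agent.Lib_helper25.DA.Loc

/-!
# Green's formula on a compact manifold
-/

open scoped Manifold ContDiff Topology
open MeasureTheory Set

namespace Pool.Agent.Lib_helper25.DA

open Pool.Agent.Lib_helper91.CMC2

variable {n m : ℕ} {M : Type*} [TopologicalSpace M] [ChartedSpace (E n) M]

/-- the inner product of gradients on the manifold -/
noncomputable def gradM (x : M → E m) (A B : M → ℝ) (p : M) : ℝ :=
  gin (x ∘ (chartAt (E n) p).symm) (A ∘ (chartAt (E n) p).symm) (B ∘ (chartAt (E n) p).symm)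
    (chartAt (E n) p p)

section
variable [IsManifold 𝓘(ℝ, E n) ∞ M]

lemma gradM_eq {x : M → E m} (hx : ContMDiff 𝓘(ℝ, E n) 𝓘(ℝ, E m) ∞ x)
    (hi : IsImmersive n x) {A B : M → ℝ} (hA : ContMDiff 𝓘(ℝ, E n) 𝓘(ℝ, ℝ) ∞ A)
    (hB : ContMDiff 𝓘(ℝ, E n) 𝓘(ℝ, ℝ) ∞ B) {e : OpenPartialHomeomorph M (E n)}
    (he : e ∈ atlas (E n) M) {z : E n} (hz : z ∈ e.target) :
    gradM (n := n) x A B (e.symm z) = gin (x ∘ e.symm) (A ∘ e.symm) (B ∘ e.symm) z :=
  (gin_trans hx hi hA hB he (chart_mem_atlas _ _) hz (mem_chart_source _ _)).symm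

omit [IsManifold 𝓘(ℝ, E n) ∞ M] in
lemma gradM_zero {x : M → E m} {A B : M → ℝ} {p : M} (h : p ∉ tsupport A) :
    gradM (n := n) x A B p = 0 := by
  unfold gradM gin
  have h1 : A =ᶠ[𝓝 p] fun _ => 0 := notMem_tsupport_iff_eventuallyEq.1 h
  set e := chartAt (E n) p with he
  have hp : p ∈ e.source := mem_chart_source _ p
  have h2 : A ∘ e.symm =ᶠ[𝓝 (e p)] fun _ => 0 := by
    have hc : Filter.Tendsto e.symm (𝓝 (e p)) (𝓝 p) := by
      have := e.continuousAt_symm (e.map_source hp)
      unfold ContinuousAt at this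
      rwa [e.left_inv hp] at this
    exact hc.eventually h1
  refine Finset.sum_eq_zero fun i _ => Finset.sum_eq_zero fun j _ => ?_
  rw [pd_congr h2 i, pd_const]
  ring

lemma gradM_sum {ι : Type*} [Fintype ι] {x : M → E m} {χ : ι → M → ℝ}
    (hχ : ∀ i, ContMDiff 𝓘(ℝ, E n) 𝓘(ℝ, ℝ) ∞ (χ i)) (h1 : ∀ p, ∑ i, χ i p = 1)
    (B : M → ℝ) (p : M) : ∑ i, gradM (n := n) x (χ i) B p = 0 := by
  unfold gradM gin
  set e := chartAt (E n) p with he
  have hp : p ∈ e.source := mem_chart_source _ p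
  rw [Finset.sum_comm]
  refine Finset.sum_eq_zero fun a _ => ?_
  rw [Finset.sum_comm]
  refine Finset.sum_eq_zero fun b _ => ?_
  rw [← Finset.mul_sum, ← Finset.sum_mul]
  have h2 : ∑ i, pd a (χ i ∘ e.symm) (e p) = 0 := by
    rw [← pd_sum (F := fun i => χ i ∘ e.symm) (fun i _ => diff_of
      (chart_smooth (hχ i) (chart_mem_atlas _ _) (e.map_source hp))) a]
    have : (fun w => ∑ i, (χ i ∘ e.symm) w) = fun _ => (1 : ℝ) := by
      funext w; exact h1 _
    rw [this, pd_const]
  rw [h2]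
  ring

/-- Green's formula, in the form needed -/
theorem green_global [CompactSpace M] [T2Space M] {x : M → E m}
    (hx : ContMDiff 𝓘(ℝ, E n) 𝓘(ℝ, E m) ∞ x) (hi : IsImmersive n x)
    {U R LU LR : M → ℝ} (hU : ContMDiff 𝓘(ℝ, E n) 𝓘(ℝ, ℝ) ∞ U)
    (hR : ContMDiff 𝓘(ℝ, E n) 𝓘(ℝ, ℝ) ∞ R)
    (hLU : ∀ e ∈ atlas (E n) M, ∀ z ∈ e.target,
      lap (x ∘ e.symm) (U ∘ e.symm) z = LU (e.symm z))
    (hLR : ∀ e ∈ atlas (E n) M, ∀ z ∈ e.target,
      lap (x ∘ e.symm) (R ∘ e.symm) z = LR (e.symm z))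
    (h0 : ∀ p, 0 ≤ U p * LR p - R p * LU p) (p : M) : U p * LR p - R p * LU p = 0 := by
  classical
  -- finite atlas
  obtain ⟨t, ht⟩ := CompactSpace.elim_nhds_subcover (fun p : M => (chartAt (E n) p).source)
    (fun p => (chartAt (E n) p).open_source.mem_nhds (mem_chart_source _ p))
  let ι := {q : M // q ∈ t}
  let ch : ι → OpenPartialHomeomorph M (E n) := fun i => chartAt (E n) i.1
  have hch : ∀ i, ch i ∈ atlas (E n) M := fun i => chart_mem_atlas _ _
  have hcov : (univ : Set M) ⊆ ⋃ i : ι, (ch i).source := by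
    intro q _
    have hq : q ∈ ⋃ r ∈ t, (chartAt (E n) r).source := by rw [ht]; trivial
    simp only [mem_iUnion] at hq
    obtain ⟨r, hr, hq⟩ := hq
    exact mem_iUnion.2 ⟨⟨r, hr⟩, hq⟩
  obtain ⟨χ, hχ⟩ := SmoothPartitionOfUnity.exists_isSubordinate 𝓘(ℝ, E n)
    (isClosed_univ (X := M)) (fun i : ι => (ch i).source) (fun i => (ch i).open_source) hcov
  have hsum : ∀ q, ∑ i, χ i q = 1 := by
    intro q
    have := χ.sum_eq_one (mem_univ q)
    rwa [finsum_eq_sum_of_fintype] at this
  have hsm : ∀ i, ContMDiff 𝓘(ℝ, E n) 𝓘(ℝ, ℝ) ∞ (χ i) := fun i => (χ i).contMDiff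
  have hnn : ∀ i q, 0 ≤ χ i q := fun i q => χ.nonneg i q
  -- compact sets
  set K : ι → Set (E n) := fun i => ch i '' tsupport (χ i) with hK
  have hKc : ∀ i, IsCompact (K i) := fun i =>
    ((isClosed_tsupport _).isCompact).image_of_continuousOn
      ((ch i).continuousOn.mono (hχ i))
  have hKT : ∀ i, K i ⊆ (ch i).target := by
    rintro i _ ⟨q, hq, rfl⟩
    exact (ch i).map_source (hχ i hq)
  have hts : ∀ i, ∀ z ∈ (ch i).target, z ∉ K i → (ch i).symm z ∉ tsupport (χ i) := by
    intro i z hz hzK hc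
    exact hzK ⟨_, hc, (ch i).right_inv hz⟩
  have hz0 : ∀ i q, q ∉ tsupport (χ i) → χ i q = 0 := fun i q hq =>
    image_eq_zero_of_notMem_tsupport hq
  -- chart expressions
  have sX : ∀ e ∈ atlas (E n) M, ∀ z ∈ e.target, ContDiffAt ℝ ∞ (x ∘ e.symm) z :=
    fun e he z hz => chart_smooth hx he hz
  have sU : ∀ e ∈ atlas (E n) M, ∀ z ∈ e.target, ContDiffAt ℝ ∞ (U ∘ e.symm) z :=
    fun e he z hz => chart_smooth hU he hz
  have sR : ∀ e ∈ atlas (E n) M, ∀ z ∈ e.target, ContDiffAt ℝ ∞ (R ∘ e.symm) z :=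
    fun e he z hz => chart_smooth hR he hz
  have sχ : ∀ i, ∀ e ∈ atlas (E n) M, ∀ z ∈ e.target, ContDiffAt ℝ ∞ (χ i ∘ e.symm) z :=
    fun i e he z hz => chart_smooth (hsm i) he hz
  set D : M → ℝ := fun q => U q * LR q - R q * LU q with hD
  set Kf : ι → M → ℝ := fun i q => U q * gradM (n := n) x (χ i) R q
    - R q * gradM (n := n) x (χ i) U q with hKf
  have Kf0 : ∀ i q, q ∉ tsupport (χ i) → Kf i q = 0 := fun i q hq => by
    simp only [hKf]
    rw [gradM_zero hq, gradM_zero hq]; ring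
  have Kfs : ∀ i q, q ∉ (ch i).source → Kf i q = 0 := fun i q hq =>
    Kf0 i q fun hc => hq (hχ i hc)
  have χs : ∀ i q, q ∉ (ch i).source → χ i q = 0 := fun i q hq =>
    hz0 i q fun hc => hq (hχ i hc)
  -- continuity in charts
  have cρ : ∀ e ∈ atlas (E n) M, ContinuousOn (rho (x ∘ e.symm)) e.target :=
    fun e he z hz => (rho_smooth (sX e he z hz) (hi e he z hz)).continuousAt.continuousWithinAt
  have cχ : ∀ i, ∀ e ∈ atlas (E n) M, ContinuousOn (fun z => χ i (e.symm z)) e.target :=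
    fun i e he z hz => (sχ i e he z hz).continuousAt.continuousWithinAt
  have cKf : ∀ i, ∀ e ∈ atlas (E n) M, ContinuousOn (fun z => Kf i (e.symm z)) e.target := by
    intro i e he
    have h1 : ContinuousOn (fun z => (U ∘ e.symm) z * gin (x ∘ e.symm) (χ i ∘ e.symm)
        (R ∘ e.symm) z - (R ∘ e.symm) z * gin (x ∘ e.symm) (χ i ∘ e.symm) (U ∘ e.symm) z)
        e.target := fun z hz =>
      (((sU e he z hz).mul (gin_smooth (sX e he z hz) (hi e he z hz) (sχ i e he z hz)
        (sR e he z hz))).sub ((sR e he z hz).mul (gin_smooth (sX e he z hz) (hi e he z hz)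
        (sχ i e he z hz) (sU e he z hz)))).continuousAt.continuousWithinAt
    refine h1.congr fun z hz => ?_
    simp only [hKf, Function.comp_apply]
    rw [gradM_eq hx hi (hsm i) hR he hz, gradM_eq hx hi (hsm i) hU he hz]
  have cD : ∀ e ∈ atlas (E n) M, ContinuousOn (fun z => D (e.symm z)) e.target := by
    intro e he
    have h1 : ContinuousOn (fun z => (U ∘ e.symm) z * lap (x ∘ e.symm) (R ∘ e.symm) z
        - (R ∘ e.symm) z * lap (x ∘ e.symm) (U ∘ e.symm) z) e.target := fun z hz =>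
      (((sU e he z hz).mul (lap_smooth (sX e he z hz) (hi e he z hz) (sR e he z hz))).sub
        ((sR e he z hz).mul (lap_smooth (sX e he z hz) (hi e he z hz)
          (sU e he z hz)))).continuousAt.continuousWithinAt
    refine h1.congr fun z hz => ?_
    simp only [hD, Function.comp_apply]
    rw [hLU e he z hz, hLR e he z hz]
  -- step 1
  have st1 : ∀ i, Jint x (ch i) (fun q => χ i q * D q) = Jint x (ch i) (Kf i) := by
    intro i
    have hg := loc_green (ch i).open_target (hKc i) (hKT i) (X := x ∘ (ch i).symm)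
      (a := χ i ∘ (ch i).symm) (U := U ∘ (ch i).symm) (R := R ∘ (ch i).symm)
      (sX _ (hch i)) (hi _ (hch i)) (sχ i _ (hch i)) (sU _ (hch i)) (sR _ (hch i))
      (fun z hz hzK => hz0 i _ (hts i z hz hzK))
    unfold Jint
    calc ∫ z in (ch i).target, rho (x ∘ (ch i).symm) z * (χ i ((ch i).symm z)
          * D ((ch i).symm z)) = _ := ?_
      _ = _ := hg
      _ = _ := ?_
    · refine setIntegral_congr_fun (ch i).open_target.measurableSet fun z hz => ?_
      simp only [hD, Function.comp_apply]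
      rw [hLU _ (hch i) z hz, hLR _ (hch i) z hz]
    · refine setIntegral_congr_fun (ch i).open_target.measurableSet fun z hz => ?_
      simp only [hKf, Function.comp_apply]
      rw [gradM_eq hx hi (hsm i) hR (hch i) hz, gradM_eq hx hi (hsm i) hU (hch i) hz]
  -- integrability
  have int1 : ∀ i j, IntegrableOn (fun z => rho (x ∘ (ch i).symm) z *
      (χ j ((ch i).symm z) * Kf i ((ch i).symm z))) (ch i).target := by
    intro i j
    refine integrableOn_compact (ch i).open_target (hKc i) (hKT i)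
      ((cρ _ (hch i)).mul ((cχ j _ (hch i)).mul (cKf i _ (hch i)))) fun z hz hzK => ?_
    rw [Kf0 i _ (hts i z hz hzK)]; ring
  have int2 : ∀ i j, IntegrableOn (fun z => rho (x ∘ (ch j).symm) z *
      (χ j ((ch j).symm z) * Kf i ((ch j).symm z))) (ch j).target := by
    intro i j
    refine integrableOn_compact (ch j).open_target (hKc j) (hKT j)
      ((cρ _ (hch j)).mul ((cχ j _ (hch j)).mul (cKf i _ (hch j)))) fun z hz hzK => ?_
    rw [hz0 j _ (hts j z hz hzK)]; ring
  have int3 : ∀ i, IntegrableOn (fun z => rho (x ∘ (ch i).symm) z *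
      (χ i ((ch i).symm z) * D ((ch i).symm z))) (ch i).target := by
    intro i
    refine integrableOn_compact (ch i).open_target (hKc i) (hKT i)
      ((cρ _ (hch i)).mul ((cχ i _ (hch i)).mul (cD _ (hch i)))) fun z hz hzK => ?_
    rw [hz0 i _ (hts i z hz hzK)]; ring
  -- step 2
  have st2 : ∀ i, Jint x (ch i) (Kf i) = ∑ j, Jint x (ch i) (fun q => χ j q * Kf i q) := by
    intro i
    unfold Jint
    rw [← integral_finsetSum _ fun j _ => int1 i j]
    refine setIntegral_congr_fun (ch i).open_target.measurableSet fun z hz => ?_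
    rw [← Finset.mul_sum, ← Finset.sum_mul, hsum, one_mul]
  -- step 3
  have st3 : ∀ i j, Jint x (ch i) (fun q => χ j q * Kf i q) =
      Jint x (ch j) (fun q => χ j q * Kf i q) := by
    intro i j
    refine Jint_trans hx (hch i) (hch j) (fun q hq => ?_) (fun q hq => ?_)
    · rw [Kfs i q hq, mul_zero]
    · rw [χs j q hq, zero_mul]
  -- step 4
  have st4 : ∀ j, ∑ i, Jint x (ch j) (fun q => χ j q * Kf i q) = 0 := by
    intro j
    unfold Jint
    rw [← integral_finsetSum _ fun i _ => int2 i j]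
    have : ∀ z, ∑ i, rho (x ∘ (ch j).symm) z * (χ j ((ch j).symm z) * Kf i ((ch j).symm z))
        = 0 := by
      intro z
      rw [← Finset.mul_sum, ← Finset.mul_sum]
      have : ∑ i, Kf i ((ch j).symm z) = 0 := by
        simp only [hKf]
        rw [Finset.sum_sub_distrib, ← Finset.mul_sum, ← Finset.mul_sum,
          gradM_sum hsm hsum, gradM_sum hsm hsum]
        ring
      rw [this]; ring
    simp only [this, integral_zero]
  have hnnD : ∀ i, 0 ≤ Jint x (ch i) (fun q => χ i q * D q) := fun i =>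
    setIntegral_nonneg (ch i).open_target.measurableSet fun z hz =>
      mul_nonneg (rho_pos (hi _ (hch i) z hz)).le (mul_nonneg (hnn i _) (h0 _))
  have htot : ∑ i, Jint x (ch i) (fun q => χ i q * D q) = 0 := by
    simp only [st1, st2]
    rw [Finset.sum_comm]
    refine Finset.sum_eq_zero fun j _ => ?_
    rw [← st4 j]
    exact Finset.sum_congr rfl fun i _ => st3 i j
  have hz : ∀ i, Jint x (ch i) (fun q => χ i q * D q) = 0 := fun i =>
    (Finset.sum_eq_zero_iff_of_nonneg fun i _ => hnnD i).1 htot i (Finset.mem_univ i)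
  have hpt : ∀ i, ∀ z ∈ (ch i).target, χ i ((ch i).symm z) * D ((ch i).symm z) = 0 := by
    intro i z hz'
    have h1 := hz i
    unfold Jint at h1
    have hnn' : 0 ≤ᵐ[volume.restrict (ch i).target] fun z => rho (x ∘ (ch i).symm) z *
        (χ i ((ch i).symm z) * D ((ch i).symm z)) := by
      rw [Filter.EventuallyLE, ae_restrict_iff' (ch i).open_target.measurableSet]
      exact ae_of_all _ fun z hz =>
        mul_nonneg (rho_pos (hi _ (hch i) z hz)).le (mul_nonneg (hnn i _) (h0 _))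
    rw [setIntegral_eq_zero_iff_of_nonneg_ae hnn' (int3 i)] at h1
    have h2 := MeasureTheory.Measure.eqOn_open_of_ae_eq h1 (ch i).open_target
      ((cρ _ (hch i)).mul ((cχ i _ (hch i)).mul (cD _ (hch i)))) continuousOn_const hz'
    simp only [Pi.zero_apply] at h2
    exact (mul_eq_zero.1 h2).resolve_left (rho_pos (hi _ (hch i) z hz')).ne'
  -- conclusion
  obtain ⟨i, hi'⟩ : ∃ i, χ i p ≠ 0 := by
    by_contra hcon
    push Not at hcon
    have := hsum p
    simp only [hcon, Finset.sum_const_zero] at this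
    exact zero_ne_one this
  have hps : p ∈ (ch i).source := by
    by_contra hc
    exact hi' (χs i p hc)
  have h3 := hpt i (ch i p) ((ch i).map_source hps)
  rw [(ch i).left_inv hps] at h3
  exact (mul_eq_zero.1 h3).resolve_left hi'

end

end Pool.Agent.Lib_helper25.DA
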