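import Pool.Agent.Lib_helper25.DA.Div

/-!
# Change of charts
-/

open scoped Manifold ContDiff Topology
open MeasureTheory Set

namespace Pool.Agent.Lib_helper25.DA

open Pool.Agent.Lib_helper91.CMC2

/-- the inner product of the gradients -/
noncomputable def gin {n m : ℕ} (X : E n → E m) (F G : E n → ℝ) (z : E n) : ℝ :=
  ∑ i, ∑ j, (metric X z)⁻¹ i j * (pd i F z * pd j G z)

section
variable {n m : ℕ} {M : Type*} [TopologicalSpace M] [ChartedSpace (E n) M]
  [IsManifold 𝓘(ℝ, E n) ∞ M]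
variable {e e' : OpenPartialHomeomorph M (E n)}

lemma trans_smooth (he : e ∈ atlas (E n) M) (he' : e' ∈ atlas (E n) M) {z : E n}
    (hz : z ∈ e.target) (hz' : e.symm z ∈ e'.source) :
    ContDiffAt ℝ ∞ (e' ∘ e.symm) z := by
  have h1 : ContMDiffOn 𝓘(ℝ, E n) 𝓘(ℝ, E n) ∞ e.symm e.target :=
    contMDiffOn_symm_of_mem_maximalAtlas (IsManifold.subset_maximalAtlas he)
  have h2 : ContMDiffOn 𝓘(ℝ, E n) 𝓘(ℝ, E n) ∞ e' e'.source :=
    contMDiffOn_of_mem_maximalAtlas (IsManifold.subset_maximalAtlas he')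
  have h3 : ContMDiffOn 𝓘(ℝ, E n) 𝓘(ℝ, E n) ∞ (e' ∘ e.symm) (e.target ∩ e.symm ⁻¹' e'.source) :=
    h2.comp (h1.mono inter_subset_left) (fun w hw => hw.2)
  have h4 := contMDiffOn_iff_contDiffOn.1 h3
  exact h4.contDiffAt ((e.isOpen_inter_preimage_symm e'.open_source).mem_nhds ⟨hz, hz'⟩)

omit [ChartedSpace (E n) M] [IsManifold 𝓘(ℝ, E n) ∞ M] in
lemma comp_trans {V : Type*} (f : M → V) {z : E n}
    (hz : z ∈ e.target) (hz' : e.symm z ∈ e'.source) :
    f ∘ e.symm =ᶠ[𝓝 z] (f ∘ e'.symm) ∘ (e' ∘ e.symm) := by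
  filter_upwards [(e.isOpen_inter_preimage_symm e'.open_source).mem_nhds ⟨hz, hz'⟩] with w hw
  simp only [Function.comp_apply]
  rw [e'.left_inv hw.2]

/-- the Jacobian matrix of the transition map -/
noncomputable def Jm (e e' : OpenPartialHomeomorph M (E n)) (z : E n) :
    Matrix (Fin n) (Fin n) ℝ :=
  Matrix.of fun k i => (fderiv ℝ (e' ∘ e.symm) z (EuclideanSpace.single i (1 : ℝ))) k

omit [ChartedSpace (E n) M] [IsManifold 𝓘(ℝ, E n) ∞ M] in
lemma det_Jm (z : E n) : (Jm e e' z).det = (fderiv ℝ (e' ∘ e.symm) z).det := by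
  have h := LinearMap.det_toMatrix (EuclideanSpace.basisFun (Fin n) ℝ).toBasis
    ((fderiv ℝ (e' ∘ e.symm) z : E n →L[ℝ] E n) : E n →ₗ[ℝ] E n)
  rw [ContinuousLinearMap.det, ← h]
  congr 1

/-- chain rule -/
lemma pd_trans {V : Type*} [NormedAddCommGroup V] [NormedSpace ℝ V] {f : M → V}
    (hf : ContMDiff 𝓘(ℝ, E n) 𝓘(ℝ, V) ∞ f)
    (he : e ∈ atlas (E n) M) (he' : e' ∈ atlas (E n) M) {z : E n}
    (hz : z ∈ e.target) (hz' : e.symm z ∈ e'.source) (i : Fin n) :
    pd i (f ∘ e.symm) z = ∑ a, Jm e e' z a i • pd a (f ∘ e'.symm) (e' (e.symm z)) := by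
  rw [pd_congr (comp_trans f hz hz') i]
  unfold pd
  have h1 : DifferentiableAt ℝ (e' ∘ e.symm) z := diff_of (trans_smooth he he' hz hz')
  have h2 : DifferentiableAt ℝ (f ∘ e'.symm) ((e' ∘ e.symm) z) :=
    diff_of (chart_smooth hf he' (e'.map_source hz'))
  rw [fderiv_comp z h2 h1, ContinuousLinearMap.comp_apply, fderiv_eq_sum]
  rfl

lemma metric_trans {x : M → E m} (hx : ContMDiff 𝓘(ℝ, E n) 𝓘(ℝ, E m) ∞ x)
    (he : e ∈ atlas (E n) M) (he' : e' ∈ atlas (E n) M) {z : E n}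
    (hz : z ∈ e.target) (hz' : e.symm z ∈ e'.source) :
    metric (x ∘ e.symm) z = (Jm e e' z).transpose * metric (x ∘ e'.symm) (e' (e.symm z))
      * Jm e e' z := by
  ext i j
  rw [Matrix.mul_apply]
  simp only [Matrix.mul_apply, Matrix.transpose_apply]
  unfold metric
  rw [pd_trans hx he he' hz hz' i, pd_trans hx he he' hz hz' j, sum_inner]
  simp only [inner_sum, real_inner_smul_left, real_inner_smul_right]
  rw [Finset.sum_comm]
  refine Finset.sum_congr rfl fun b _ => ?_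
  rw [Finset.sum_mul]
  refine Finset.sum_congr rfl fun a _ => by ring

lemma det_trans_ne {x : M → E m} (hx : ContMDiff 𝓘(ℝ, E n) 𝓘(ℝ, E m) ∞ x)
    (hi : IsImmersive n x)
    (he : e ∈ atlas (E n) M) (he' : e' ∈ atlas (E n) M) {z : E n}
    (hz : z ∈ e.target) (hz' : e.symm z ∈ e'.source) : (Jm e e' z).det ≠ 0 := by
  intro h0
  have h1 := congrArg Matrix.det (metric_trans hx he he' hz hz')
  rw [Matrix.det_mul, h0, mul_zero] at h1
  exact (det_pos (hi e he z hz)).ne' h1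

lemma rho_trans {x : M → E m} (hx : ContMDiff 𝓘(ℝ, E n) 𝓘(ℝ, E m) ∞ x)
    (he : e ∈ atlas (E n) M) (he' : e' ∈ atlas (E n) M) {z : E n}
    (hz : z ∈ e.target) (hz' : e.symm z ∈ e'.source) :
    rho (x ∘ e.symm) z = |(fderiv ℝ (e' ∘ e.symm) z).det| *
      rho (x ∘ e'.symm) (e' (e.symm z)) := by
  have h1 := congrArg Matrix.det (metric_trans hx he he' hz hz')
  rw [Matrix.det_mul, Matrix.det_mul, Matrix.det_transpose] at h1
  have h2 : (metric (x ∘ e.symm) z).det = ((Jm e e' z).det) ^ 2 *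
      (metric (x ∘ e'.symm) (e' (e.symm z))).det := by rw [h1]; ring
  unfold rho
  rw [h2, Real.sqrt_mul (sq_nonneg _), Real.sqrt_sq_eq_abs, det_Jm]

lemma gin_trans {x : M → E m} (hx : ContMDiff 𝓘(ℝ, E n) 𝓘(ℝ, E m) ∞ x)
    (hi : IsImmersive n x) {F G : M → ℝ} (hF : ContMDiff 𝓘(ℝ, E n) 𝓘(ℝ, ℝ) ∞ F)
    (hG : ContMDiff 𝓘(ℝ, E n) 𝓘(ℝ, ℝ) ∞ G)
    (he : e ∈ atlas (E n) M) (he' : e' ∈ atlas (E n) M) {z : E n}
    (hz : z ∈ e.target) (hz' : e.symm z ∈ e'.source) :
    gin (x ∘ e.symm) (F ∘ e.symm) (G ∘ e.symm) z =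
      gin (x ∘ e'.symm) (F ∘ e'.symm) (G ∘ e'.symm) (e' (e.symm z)) := by
  set J := Jm e e' z with hJ
  set g := metric (x ∘ e.symm) z with hg
  set g' := metric (x ∘ e'.symm) (e' (e.symm z)) with hg'
  have h : g = J.transpose * g' * J := metric_trans hx he he' hz hz'
  have hJd : J.det ≠ 0 := det_trans_ne hx hi he he' hz hz'
  have hJu : IsUnit J.det := isUnit_iff_ne_zero.2 hJd
  have hJtu : IsUnit J.transpose.det := by rw [Matrix.det_transpose]; exact hJu
  have hinv : J * g⁻¹ * J.transpose = g'⁻¹ := by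
    rw [h, Matrix.mul_inv_rev, Matrix.mul_inv_rev]
    have e1 : J * (J⁻¹ * (g'⁻¹ * J.transpose⁻¹)) * J.transpose
        = (J * J⁻¹) * g'⁻¹ * (J.transpose⁻¹ * J.transpose) := by
      simp only [Matrix.mul_assoc]
    rw [e1, Matrix.mul_nonsing_inv _ hJu, Matrix.nonsing_inv_mul _ hJtu, Matrix.one_mul,
      Matrix.mul_one]
  unfold gin
  rw [← hg, ← hg', ← hinv]
  simp only [pd_trans hF he he' hz hz', pd_trans hG he he' hz hz', smul_eq_mul, ← hJ,
    Matrix.mul_apply, Matrix.transpose_apply]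
  set p : Fin n → ℝ := fun a => pd a (F ∘ e'.symm) (e' (e.symm z)) with hp
  set q : Fin n → ℝ := fun a => pd a (G ∘ e'.symm) (e' (e.symm z)) with hq
  have hp' : ∀ a, pd a (F ∘ e'.symm) (e' (e.symm z)) = p a := fun _ => rfl
  have hq' : ∀ a, pd a (G ∘ e'.symm) (e' (e.symm z)) = q a := fun _ => rfl
  simp only [hp', hq']
  clear_value p q J
  -- `∑_ij g^ij (∑_a J_ai p_a) (∑_b J_bj q_b) = ∑_ab (∑_j (∑_i J_ai g^ij) J_bj) p_a q_b`
  have l1 : ∀ i j, g⁻¹ i j * ((∑ a, J a i * p a) * ∑ b, J b j * q b) =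
      ∑ a, ∑ b, J a i * g⁻¹ i j * J b j * (p a * q b) := by
    intro i j
    rw [Finset.sum_mul_sum, Finset.mul_sum]
    refine Finset.sum_congr rfl fun a _ => ?_
    rw [Finset.mul_sum]
    refine Finset.sum_congr rfl fun b _ => by ring
  have l2 : ∀ a b, (∑ j, (∑ i, J a i * g⁻¹ i j) * J b j) * (p a * q b) =
      ∑ j, ∑ i, J a i * g⁻¹ i j * J b j * (p a * q b) := by
    intro a b
    rw [Finset.sum_mul]
    refine Finset.sum_congr rfl fun j _ => ?_
    rw [Finset.sum_mul, Finset.sum_mul]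
  simp only [l1, l2]
  -- swap sums
  calc ∑ i, ∑ j, ∑ a, ∑ b, J a i * g⁻¹ i j * J b j * (p a * q b)
      = ∑ i, ∑ a, ∑ j, ∑ b, J a i * g⁻¹ i j * J b j * (p a * q b) :=
        Finset.sum_congr rfl fun i _ => Finset.sum_comm
    _ = ∑ a, ∑ i, ∑ j, ∑ b, J a i * g⁻¹ i j * J b j * (p a * q b) := Finset.sum_comm
    _ = ∑ a, ∑ i, ∑ b, ∑ j, J a i * g⁻¹ i j * J b j * (p a * q b) :=
        Finset.sum_congr rfl fun a _ => Finset.sum_congr rfl fun i _ => Finset.sum_comm
    _ = ∑ a, ∑ b, ∑ i, ∑ j, J a i * g⁻¹ i j * J b j * (p a * q b) :=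
        Finset.sum_congr rfl fun a _ => Finset.sum_comm
    _ = ∑ a, ∑ b, ∑ j, ∑ i, J a i * g⁻¹ i j * J b j * (p a * q b) :=
        Finset.sum_congr rfl fun a _ => Finset.sum_congr rfl fun b _ => Finset.sum_comm

/-- the integral over a chart -/
noncomputable def Jint (x : M → E m) (e : OpenPartialHomeomorph M (E n)) (h : M → ℝ) : ℝ :=
  ∫ z in e.target, rho (x ∘ e.symm) z * h (e.symm z)

/-- independence of the chart -/
theorem Jint_trans {x : M → E m} (hx : ContMDiff 𝓘(ℝ, E n) 𝓘(ℝ, E m) ∞ x)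
    (he : e ∈ atlas (E n) M) (he' : e' ∈ atlas (E n) M) {h : M → ℝ}
    (h0 : ∀ p, p ∉ e.source → h p = 0) (h0' : ∀ p, p ∉ e'.source → h p = 0) :
    Jint x e h = Jint x e' h := by
  have key : ∀ {e e' : OpenPartialHomeomorph M (E n)}, (∀ p, p ∉ e'.source → h p = 0) →
      Jint x e h = ∫ z in e.target ∩ e.symm ⁻¹' e'.source, rho (x ∘ e.symm) z * h (e.symm z) := by
    intro e e' h0'
    unfold Jint
    refine (setIntegral_eq_of_subset_of_forall_sdiff_eq_zero e.open_target.measurableSet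
      inter_subset_left fun z hz => ?_).symm.symm
    rw [h0' _ (fun hc => hz.2 ⟨hz.1, hc⟩), mul_zero]
  rw [key (e := e) (e' := e') h0', key (e := e') (e' := e) h0]
  set S := e.target ∩ e.symm ⁻¹' e'.source with hS
  set S' := e'.target ∩ e'.symm ⁻¹' e.source with hS'
  have himg : (e' ∘ e.symm) '' S = S' := by
    ext w
    constructor
    · rintro ⟨z, ⟨hz, hz'⟩, rfl⟩
      refine ⟨e'.map_source hz', ?_⟩
      simp only [Function.comp_apply, mem_preimage]
      rw [e'.left_inv hz']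
      exact e.map_target hz
    · rintro ⟨hw, hw'⟩
      refine ⟨e (e'.symm w), ⟨e.map_source hw', ?_⟩, ?_⟩
      · simp only [mem_preimage]
        rw [e.left_inv hw']
        exact e'.map_target hw
      · simp only [Function.comp_apply]
        rw [e.left_inv hw', e'.right_inv hw]
  have hmeas : MeasurableSet S := (e.isOpen_inter_preimage_symm e'.open_source).measurableSet
  have hder : ∀ z ∈ S, HasFDerivWithinAt (e' ∘ e.symm) (fderiv ℝ (e' ∘ e.symm) z) S z :=
    fun z hz => (diff_of (trans_smooth he he' hz.1 hz.2)).hasFDerivAt.hasFDerivWithinAt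
  have hinj : InjOn (e' ∘ e.symm) S := by
    intro z hz w hw hzw
    simp only [Function.comp_apply] at hzw
    have h1 : e.symm z = e.symm w := e'.injOn hz.2 hw.2 hzw
    have h2 := congrArg e h1
    rwa [e.right_inv hz.1, e.right_inv hw.1] at h2
  have hcv := integral_image_eq_integral_abs_det_fderiv_smul volume hmeas hder hinj
    (fun w => rho (x ∘ e'.symm) w * h (e'.symm w))
  rw [himg] at hcv
  rw [hcv]
  refine setIntegral_congr_fun hmeas fun z hz => ?_
  simp only [Function.comp_apply, smul_eq_mul]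
  rw [rho_trans hx he he' hz.1 hz.2, e'.left_inv hz.2]
  simp only [Function.comp_def]
  ring

end

end Pool.Agent.Lib_helper25.DA
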