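import Pool.Agent.Lib_helper25.DA.Inv

/-!
# Integration by parts in a chart
-/

open scoped Manifold ContDiff Topology
open MeasureTheory Set

namespace Pool.Agent.Lib_helper25.DA

open Pool.Agent.Lib_helper91.CMC2

variable {n m : ℕ}

lemma integrableOn_compact {T K : Set (E n)} (hT : IsOpen T) (hK : IsCompact K) (hKT : K ⊆ T)
    {f : E n → ℝ} (hf : ContinuousOn f T) (h0 : ∀ z ∈ T, z ∉ K → f z = 0) :
    IntegrableOn f T := by
  have h1 : IntegrableOn f K := (hf.mono hKT).integrableOn_compact hK
  exact h1.of_forall_sdiff_eq_zero hT.measurableSet fun z hz => h0 z hz.1 hz.2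

lemma int_pd {T K : Set (E n)} (hT : IsOpen T) (hK : IsCompact K) (hKT : K ⊆ T) {f : E n → ℝ}
    (hf : ∀ z ∈ T, ContDiffAt ℝ ∞ f z) (h0 : ∀ z ∈ T, z ∉ K → f z = 0) (i : Fin n) :
    ∫ z in T, pd i f z = 0 := by
  set F := T.indicator f with hF
  have e1 : ∀ z ∈ T, F =ᶠ[𝓝 z] f := fun z hz => by
    filter_upwards [hT.mem_nhds hz] with w hw
    exact indicator_of_mem hw f
  have e2 : ∀ z, z ∉ K → F z = 0 := fun z hz => by
    by_cases hzT : z ∈ T
    · rw [hF, indicator_of_mem hzT]; exact h0 z hzT hz
    · rw [hF, indicator_of_notMem hzT]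
  have e3 : ∀ z, z ∉ K → F =ᶠ[𝓝 z] fun _ => 0 := fun z hz => by
    filter_upwards [hK.isClosed.isOpen_compl.mem_nhds hz] with w hw
    exact e2 w hw
  have hs : ContDiff ℝ ∞ F := by
    rw [contDiff_iff_contDiffAt]
    intro z
    by_cases hz : z ∈ T
    · exact (hf z hz).congr_of_eventuallyEq (e1 z hz)
    · exact contDiffAt_const.congr_of_eventuallyEq (e3 z fun hc => hz (hKT hc))
  have hcs : HasCompactSupport F := HasCompactSupport.intro hK e2
  have hc1 : Continuous (pd i F) := by
    have := hs.continuous_fderiv (by simp)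
    unfold pd
    fun_prop
  have hcs1 : HasCompactSupport (pd i F) := by
    refine HasCompactSupport.intro hK fun z hz => ?_
    rw [pd_congr (e3 z hz) i, pd_const]
  have i1 : Integrable (pd i F) := hc1.integrable_of_hasCompactSupport hcs1
  have i2 : Integrable F := hs.continuous.integrable_of_hasCompactSupport hcs
  have key := integral_mul_fderiv_eq_neg_fderiv_mul_of_integrable (𝕜 := ℝ) (μ := volume)
    (f := fun _ : E n => (1 : ℝ)) (g := F) (v := EuclideanSpace.single i (1 : ℝ))
    (by simp) (by simp only [one_mul]; exact i1) (by simpa using i2) (fun x _ => by fun_prop)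
    (fun x _ => (hs.differentiable (by simp)).differentiableAt)
  simp only [one_mul, fderiv_fun_const, Pi.zero_apply, _root_.zero_apply, zero_mul,
    integral_zero, neg_zero] at key
  calc ∫ z in T, pd i f z = ∫ z in T, pd i F z :=
        setIntegral_congr_fun hT.measurableSet fun z hz => (pd_congr (e1 z hz) i).symm
    _ = ∫ z, pd i F z := setIntegral_eq_integral_of_forall_compl_eq_zero fun z hz => by
        rw [pd_congr (e3 z fun hc => hz (hKT hc)) i, pd_const]
    _ = 0 := key

lemma christoffel_smooth {X : E n → E m} {z : E n} (hX : ContDiffAt ℝ ∞ X z)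
    (h : Function.Injective (fderiv ℝ X z)) (i j k : Fin n) :
    ContDiffAt ℝ ∞ (fun w => christoffel X w i j k) z := by
  unfold christoffel
  refine contDiffAt_const.mul (ContDiffAt.sum fun l _ => (ginv_smooth hX h k l).mul ?_)
  exact ((pd_smooth (metric_smooth hX j l) i).add (pd_smooth (metric_smooth hX i l) j)).sub
    (pd_smooth (metric_smooth hX i j) l)

lemma lap_smooth {X : E n → E m} {z : E n} (hX : ContDiffAt ℝ ∞ X z)
    (h : Function.Injective (fderiv ℝ X z)) {F : E n → ℝ} (hF : ContDiffAt ℝ ∞ F z) :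
    ContDiffAt ℝ ∞ (lap X F) z := by
  unfold lap
  refine (ContDiffAt.sum fun i _ => ContDiffAt.sum fun j _ => (ginv_smooth hX h i j).smul ?_).neg
  exact (pd_smooth (pd_smooth hF j) i).sub (ContDiffAt.sum fun k _ =>
    (christoffel_smooth hX h i j k).smul (pd_smooth hF k))

lemma gin_smooth {X : E n → E m} {z : E n} (hX : ContDiffAt ℝ ∞ X z)
    (h : Function.Injective (fderiv ℝ X z)) {F G : E n → ℝ} (hF : ContDiffAt ℝ ∞ F z)
    (hG : ContDiffAt ℝ ∞ G z) : ContDiffAt ℝ ∞ (gin X F G) z := by
  unfold gin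
  exact ContDiffAt.sum fun i _ => ContDiffAt.sum fun j _ => (ginv_smooth hX h i j).mul
    ((pd_smooth hF i).mul (pd_smooth hG j))

lemma gin_comm (X : E n → E m) (F G : E n → ℝ) (z : E n) : gin X F G z = gin X G F z := by
  unfold gin
  rw [Finset.sum_comm]
  refine Finset.sum_congr rfl fun i _ => Finset.sum_congr rfl fun j _ => ?_
  rw [inv_symm]
  ring

lemma gin_grad (X : E n → E m) (F G : E n → ℝ) (z : E n) :
    gin X F G z = ∑ i, pd i F z * grad X G i z := by
  unfold gin grad
  refine Finset.sum_congr rfl fun i _ => ?_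
  rw [Finset.mul_sum]
  refine Finset.sum_congr rfl fun j _ => by ring

/-- Green's formula in a chart -/
theorem loc_green {T K : Set (E n)} (hT : IsOpen T) (hK : IsCompact K) (hKT : K ⊆ T)
    {X : E n → E m} (hX : ∀ z ∈ T, ContDiffAt ℝ ∞ X z)
    (hi : ∀ z ∈ T, Function.Injective (fderiv ℝ X z)) {a U R : E n → ℝ}
    (ha : ∀ z ∈ T, ContDiffAt ℝ ∞ a z) (hU : ∀ z ∈ T, ContDiffAt ℝ ∞ U z)
    (hR : ∀ z ∈ T, ContDiffAt ℝ ∞ R z) (h0 : ∀ z ∈ T, z ∉ K → a z = 0) :
    ∫ z in T, rho X z * (a z * (U z * lap X R z - R z * lap X U z)) =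
      ∫ z in T, rho X z * (U z * gin X a R z - R z * gin X a U z) := by
  set f : Fin n → E n → ℝ := fun i w => a w * (U w * (rho X w * grad X R i w)
    - R w * (rho X w * grad X U i w)) with hf
  have sρ : ∀ z ∈ T, ∀ {F : E n → ℝ}, (∀ z ∈ T, ContDiffAt ℝ ∞ F z) → ∀ i,
      ContDiffAt ℝ ∞ (fun w => rho X w * grad X F i w) z := fun z hz F hF i =>
    (rho_smooth (hX z hz) (hi z hz)).mul (grad_smooth (hX z hz) (hi z hz) (hF z hz) i)
  have sb : ∀ z ∈ T, ∀ i, ContDiffAt ℝ ∞ (fun w => U w * (rho X w * grad X R i w)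
      - R w * (rho X w * grad X U i w)) z := fun z hz i =>
    ((hU z hz).mul (sρ z hz hR i)).sub ((hR z hz).mul (sρ z hz hU i))
  have sf : ∀ i, ∀ z ∈ T, ContDiffAt ℝ ∞ (f i) z := fun i z hz => (ha z hz).mul (sb z hz i)
  have f0 : ∀ i, ∀ z ∈ T, z ∉ K → f i z = 0 := fun i z hz hzK => by
    simp only [hf]; rw [h0 z hz hzK, zero_mul]
  have a0 : ∀ z ∈ T, z ∉ K → a =ᶠ[𝓝 z] fun _ => 0 := fun z hz hzK => by
    filter_upwards [hT.mem_nhds hz, hK.isClosed.isOpen_compl.mem_nhds hzK] with w hw hwK
    exact h0 w hw hwK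
  have hsum : ∑ i, ∫ z in T, pd i (f i) z = 0 :=
    Finset.sum_eq_zero fun i _ => int_pd hT hK hKT (sf i) (f0 i) i
  have hpt : ∀ z ∈ T, ∑ i, pd i (f i) z = rho X z * (U z * gin X a R z - R z * gin X a U z)
      - rho X z * (a z * (U z * lap X R z - R z * lap X U z)) := by
    intro z hz
    have e1 : ∀ i, pd i (f i) z = a z * ((U z * pd i (fun w => rho X w * grad X R i w) z
          + pd i U z * (rho X z * grad X R i z)) - (R z * pd i (fun w => rho X w * grad X U i w) z
          + pd i R z * (rho X z * grad X U i z)))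
        + pd i a z * (U z * (rho X z * grad X R i z) - R z * (rho X z * grad X U i z)) := by
      intro i
      simp only [hf]
      rw [pd_mul (diff_of (ha z hz)) (diff_of (sb z hz i))]
      congr 2
      have e2 : pd i (fun w => U w * (rho X w * grad X R i w)
          - R w * (rho X w * grad X U i w)) z =
          pd i (fun w => U w * (rho X w * grad X R i w)) z
          - pd i (fun w => R w * (rho X w * grad X U i w)) z := by
        unfold pd
        rw [fderiv_fun_sub (diff_of ((hU z hz).mul (sρ z hz hR i)))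
          (diff_of ((hR z hz).mul (sρ z hz hU i)))]
        rfl
      rw [e2, pd_mul (diff_of (hU z hz)) (diff_of (sρ z hz hR i)),
        pd_mul (diff_of (hR z hz)) (diff_of (sρ z hz hU i))]
    have e3 := div_form (hX z hz) (hi z hz) (hR z hz)
    have e4 := div_form (hX z hz) (hi z hz) (hU z hz)
    have e5 := gin_grad X U R z
    have e6 := gin_grad X R U z
    have e7 := gin_comm X U R z
    have e8 := gin_grad X a R z
    have e9 := gin_grad X a U z
    simp only [e1]
    have e10 : ∑ i, (a z * ((U z * pd i (fun w => rho X w * grad X R i w) z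
          + pd i U z * (rho X z * grad X R i z)) - (R z * pd i (fun w => rho X w * grad X U i w) z
          + pd i R z * (rho X z * grad X U i z)))
        + pd i a z * (U z * (rho X z * grad X R i z) - R z * (rho X z * grad X U i z))) =
        a z * (U z * ∑ i, pd i (fun w => rho X w * grad X R i w) z)
        - a z * (R z * ∑ i, pd i (fun w => rho X w * grad X U i w) z)
        + a z * rho X z * (∑ i, pd i U z * grad X R i z - ∑ i, pd i R z * grad X U i z)
        + rho X z * (U z * ∑ i, pd i a z * grad X R i z - R z * ∑ i, pd i a z * grad X U i z) := by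
      simp only [Finset.mul_sum, ← Finset.sum_sub_distrib, ← Finset.sum_add_distrib]
      refine Finset.sum_congr rfl fun i _ => by ring
    rw [e10, e3, e4, ← e5, ← e6, ← e8, ← e9, e7]
    ring
  have ipd : ∀ i, IntegrableOn (pd i (f i)) T := fun i =>
    integrableOn_compact hT hK hKT (fun z hz =>
      (pd_smooth (sf i z hz) i).continuousAt.continuousWithinAt) fun z hz hzK => by
      have : f i =ᶠ[𝓝 z] fun _ => 0 := by
        filter_upwards [hT.mem_nhds hz, hK.isClosed.isOpen_compl.mem_nhds hzK] with w hw hwK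
        exact f0 i w hw hwK
      rw [pd_congr this i, pd_const]
  rw [← integral_finsetSum _ (fun i _ => ipd i)] at hsum
  have hsum2 : ∫ z in T, (rho X z * (U z * gin X a R z - R z * gin X a U z)
      - rho X z * (a z * (U z * lap X R z - R z * lap X U z))) = 0 := by
    rw [← hsum]
    exact setIntegral_congr_fun hT.measurableSet fun z hz => (hpt z hz).symm
  have g0 : ∀ (F : E n → ℝ), ∀ z ∈ T, z ∉ K → gin X a F z = 0 := fun F z hz hzK => by
    unfold gin
    refine Finset.sum_eq_zero fun i _ => Finset.sum_eq_zero fun j _ => ?_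
    rw [pd_congr (a0 z hz hzK) i, pd_const]
    ring
  have i1 : IntegrableOn (fun z => rho X z * (U z * gin X a R z - R z * gin X a U z)) T := by
    refine integrableOn_compact hT hK hKT (fun z hz => ContinuousAt.continuousWithinAt ?_)
      fun z hz hzK => ?_
    · exact ((rho_smooth (hX z hz) (hi z hz)).mul (((hU z hz).mul
        (gin_smooth (hX z hz) (hi z hz) (ha z hz) (hR z hz))).sub ((hR z hz).mul
        (gin_smooth (hX z hz) (hi z hz) (ha z hz) (hU z hz))))).continuousAt
    · rw [g0 R z hz hzK, g0 U z hz hzK]; ring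
  have i2 : IntegrableOn
      (fun z => rho X z * (a z * (U z * lap X R z - R z * lap X U z))) T := by
    refine integrableOn_compact hT hK hKT (fun z hz => ContinuousAt.continuousWithinAt ?_)
      fun z hz hzK => ?_
    · exact ((rho_smooth (hX z hz) (hi z hz)).mul ((ha z hz).mul (((hU z hz).mul
        (lap_smooth (hX z hz) (hi z hz) (hR z hz))).sub ((hR z hz).mul
        (lap_smooth (hX z hz) (hi z hz) (hU z hz)))))).continuousAt
    · rw [h0 z hz hzK]; ring
  rw [integral_sub i1 i2] at hsum2
  linarith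

end Pool.Agent.Lib_helper25.DA
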