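import Pool.Agent.Lib_helper25.DA.Geo
import Pool.Agent.Lib_helper91.CMC2.IndepMain

/-!
# Compact submanifolds of non-null 2-type with constant mean curvature
-/

open scoped Manifold ContDiff Topology
open MeasureTheory Set

namespace Pool.Agent.Lib_helper25.DA

open Pool.Agent.Lib_helper91.CMC2

/-- `f` is a non-constant eigenfunction, `Δ f = μ f`, of the Laplacian of the metric induced by
`x`. -/
structure IsEigenfunction {n m : ℕ} {M : Type*} [TopologicalSpace M] [ChartedSpace (E n) M]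
    (x : M → E m) (f : M → ℝ) (μ : ℝ) : Prop where
  smooth : ContMDiff 𝓘(ℝ, E n) 𝓘(ℝ, ℝ) ∞ f
  nonconst : ∃ p q, f p ≠ f q
  eigen : ∀ e ∈ atlas (E n) M, ∀ z ∈ e.target,
    lap (x ∘ e.symm) (f ∘ e.symm) z = μ * f (e.symm z)

section
variable {n m : ℕ} {M : Type*} [TopologicalSpace M] [ChartedSpace (E n) M]
  [IsManifold 𝓘(ℝ, E n) ∞ M]

/-- subharmonic functions are harmonic on a compact manifold -/
lemma subharm [CompactSpace M] [T2Space M] {x : M → E m}
    (hx : ContMDiff 𝓘(ℝ, E n) 𝓘(ℝ, E m) ∞ x) (hi : IsImmersive n x)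
    {F LF : M → ℝ} (hF : ContMDiff 𝓘(ℝ, E n) 𝓘(ℝ, ℝ) ∞ F)
    (hLF : ∀ e ∈ atlas (E n) M, ∀ z ∈ e.target,
      lap (x ∘ e.symm) (F ∘ e.symm) z = LF (e.symm z))
    (h0 : ∀ p, LF p ≤ 0) (p : M) : LF p = 0 := by
  have h := green_global (x := x) hx hi (U := F) (R := fun _ => 1) (LU := LF) (LR := fun _ => 0)
    hF contMDiff_const hLF (fun e _ z _ => by
      have : (fun _ : M => (1 : ℝ)) ∘ e.symm = fun _ => 1 := rfl
      rw [this, lap_const]) (fun p => by have := h0 p; linarith) p
  linarith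

/-- the eigenvalues are positive -/
lemma pos_of_compact [CompactSpace M] [T2Space M] [ConnectedSpace M] {x : M → E m} {c : E m}
    {x1 x2 : M → E m} {l1 l2 : ℝ} (h : IsCMCNonNullTwoType (n := n) x c x1 x2 l1 l2) :
    0 < l1 := by
  by_contra hcon
  have hl : l1 < 0 := lt_of_le_of_ne (not_lt.1 hcon) h.ne1
  obtain ⟨N0, hN⟩ := exists_LD (n_ne_zero h) h
  -- the squared norm of the differential
  set G : M → ℝ := fun p => ∑ a, gradM (n := n) x (fun q => x1 q a) (fun q => x1 q a) p with hG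
  have hs1 : ∀ a, ContMDiff 𝓘(ℝ, E n) 𝓘(ℝ, ℝ) ∞ fun q => x1 q a := fun a => by
    have h1 : ContDiff ℝ ∞ fun v : E m => v a := by fun_prop
    exact h1.contMDiff.comp h.smooth1
  have hF : ContMDiff 𝓘(ℝ, E n) 𝓘(ℝ, ℝ) ∞ fun q => (inner ℝ (x1 q) (x1 q) : ℝ) := by
    have h1 : ContDiff ℝ ∞ fun v : E m => (inner ℝ v v : ℝ) := contDiff_id.inner ℝ contDiff_id
    exact h1.contMDiff.comp h.smooth1
  have hlap : ∀ e ∈ atlas (E n) M, ∀ z ∈ e.target,
      lap (x ∘ e.symm) ((fun q => (inner ℝ (x1 q) (x1 q) : ℝ)) ∘ e.symm) z =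
        2 * l1 * inner ℝ (x1 (e.symm z)) (x1 (e.symm z)) - 2 * G (e.symm z) := by
    intro e he z hz
    have hL := hN e he
    have e1 := lap_inner (X := x ∘ e.symm) (hL.s1 z hz) (hL.s1 z hz)
    have e2 : (fun q => (inner ℝ (x1 q) (x1 q) : ℝ)) ∘ e.symm =
        fun w => (inner ℝ ((x1 ∘ e.symm) w) ((x1 ∘ e.symm) w) : ℝ) := rfl
    rw [e2, e1, hL.e1 z hz, real_inner_smul_right, real_inner_smul_left]
    have e3 : G (e.symm z) = ∑ i, ∑ j, (metric (x ∘ e.symm) z)⁻¹ i j *
        inner ℝ (pd i (x1 ∘ e.symm) z) (pd j (x1 ∘ e.symm) z) := by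
      simp only [hG]
      have e4 : ∀ a, gradM (n := n) x (fun q => x1 q a) (fun q => x1 q a) (e.symm z) =
          ∑ i, ∑ j, (metric (x ∘ e.symm) z)⁻¹ i j *
            ((pd i (x1 ∘ e.symm) z) a * (pd j (x1 ∘ e.symm) z) a) := by
        intro a
        rw [gradM_eq h.smooth h.immersion (hs1 a) (hs1 a) he hz]
        unfold gin
        have e5 : ∀ i, pd i ((fun q => x1 q a) ∘ e.symm) z = (pd i (x1 ∘ e.symm) z) a := by
          intro i
          have := pd_clm (PiLp.proj 2 (fun _ : Fin m => ℝ) a : E m →L[ℝ] ℝ)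
            (diff_of (hL.s1 z hz)) i
          exact this
        simp only [e5]
      simp only [e4]
      rw [Finset.sum_comm]
      refine Finset.sum_congr rfl fun i _ => ?_
      rw [Finset.sum_comm]
      refine Finset.sum_congr rfl fun j _ => ?_
      rw [← Finset.mul_sum]
      congr 1
      rw [PiLp.inner_apply]
      refine Finset.sum_congr rfl fun a _ => ?_
      simp [mul_comm]
    rw [e3]
    simp only [Function.comp_apply]
    ring
  have hG0 : ∀ p, 0 ≤ G p := by
    intro p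
    simp only [hG]
    refine Finset.sum_nonneg fun a _ => ?_
    unfold gradM gin
    set e := chartAt (E n) p with he
    have hp : e p ∈ e.target := e.map_source (mem_chart_source _ p)
    have hpd := (metric_posDef (h.immersion e (chart_mem_atlas _ _) (e p) hp)).inv
    set v : Fin n → ℝ := fun i => pd i ((fun q => x1 q a) ∘ e.symm) (e p) with hv
    have h1 := hpd.posSemidef.dotProduct_mulVec_nonneg v
    have h2 : star v ⬝ᵥ ((metric (x ∘ e.symm) (e p))⁻¹.mulVec v) = ∑ i, ∑ j,
        (metric (x ∘ e.symm) (e p))⁻¹ i j * (v i * v j) := by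
      simp only [dotProduct, Matrix.mulVec, Pi.star_apply, star_trivial]
      refine Finset.sum_congr rfl fun i _ => ?_
      rw [Finset.mul_sum]
      refine Finset.sum_congr rfl fun j _ => by ring
    rw [h2] at h1
    exact h1
  have hz := subharm h.smooth h.immersion hF (LF := fun p => 2 * l1 * inner ℝ (x1 p) (x1 p)
    - 2 * G p) hlap (fun p => by
      have h1 := hG0 p
      have h2 : (0 : ℝ) ≤ inner ℝ (x1 p) (x1 p) := real_inner_self_nonneg
      nlinarith)
  have hx1 : ∀ p, x1 p = 0 := by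
    intro p
    have h1 := hz p
    have h2 := hG0 p
    have h3 : (0 : ℝ) ≤ inner ℝ (x1 p) (x1 p) := real_inner_self_nonneg
    have h4 : (inner ℝ (x1 p) (x1 p) : ℝ) = 0 := by
      by_contra hne
      have : (0 : ℝ) < inner ℝ (x1 p) (x1 p) := lt_of_le_of_ne h3 (Ne.symm hne)
      nlinarith
    exact inner_self_eq_zero.1 h4
  obtain ⟨p, q, hpq⟩ := h.nonconst1
  exact hpq (by rw [hx1, hx1])

/-- the dichotomy for compact submanifolds -/
theorem dichotomy [CompactSpace M] [T2Space M] [ConnectedSpace M] {x : M → E m} {c : E m}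
    {x1 x2 : M → E m} {l1 l2 : ℝ} (h : IsCMCNonNullTwoType (n := n) x c x1 x2 l1 l2) :
    (∃ r : ℝ, 0 < r ∧ ∀ p, dist (x p) c = r) ∨
    (0 < min l1 l2 ∧ (3 + 2 * √2) * min l1 l2 ≤ max l1 l2 ∧
      ∃ (μ : ℝ) (f : M → ℝ), min l1 l2 < μ ∧ μ < max l1 l2 ∧
        μ ^ 2 - (l1 + l2) * μ + 2 * l1 * l2 = 0 ∧ IsEigenfunction (n := n) x f μ) := by
  have hn := n_ne_zero h
  obtain ⟨N0, hN⟩ := exists_LD hn h
  have p1 : 0 < l1 := pos_of_compact h
  have p2 : 0 < l2 := pos_of_compact (cmc_symm h)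
  have pp : 0 < l1 * l2 := mul_pos p1 p2
  set y : M → E m := fun p => l1 • x1 p + l2 • x2 p with hy
  set u0 : ℝ := ((l1 + l2) * n - N0 ^ 2) / (l1 * l2) with hu0
  have hu0' : l1 * l2 * u0 = (l1 + l2) * n - N0 ^ 2 := by
    rw [hu0]; field_simp
  set U : M → ℝ := fun p => inner ℝ (x p - c) (x p - c) - u0 with hU
  set V : M → ℝ := fun p => inner ℝ (x p - c) (y p) - n with hV
  have sxc : ContMDiff 𝓘(ℝ, E n) 𝓘(ℝ, E m) ∞ fun p => x p - c := by
    have h1 : ContDiff ℝ ∞ fun v : E m => v - c := by fun_prop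
    exact h1.contMDiff.comp h.smooth
  have sy : ContMDiff 𝓘(ℝ, E n) 𝓘(ℝ, E m) ∞ y := by
    have h1 : ContDiff ℝ ∞ fun v : E m => l1 • v := by fun_prop
    have h2 : ContDiff ℝ ∞ fun v : E m => l2 • v := by fun_prop
    exact (h1.contMDiff.comp h.smooth1).add (h2.contMDiff.comp h.smooth2)
  have sin : ∀ {f g : M → E m}, ContMDiff 𝓘(ℝ, E n) 𝓘(ℝ, E m) ∞ f →
      ContMDiff 𝓘(ℝ, E n) 𝓘(ℝ, E m) ∞ g →
      ContMDiff 𝓘(ℝ, E n) 𝓘(ℝ, ℝ) ∞ fun p => (inner ℝ (f p) (g p) : ℝ) := by
    intro f g hf hg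
    have h1 : ContDiff ℝ ∞ fun v : E m × E m => (inner ℝ v.1 v.2 : ℝ) :=
      contDiff_fst.inner ℝ contDiff_snd
    have h2 : ContMDiff 𝓘(ℝ, E n) 𝓘(ℝ, E m × E m) ∞ fun p => (f p, g p) :=
      hf.prodMk_space hg
    exact h1.contMDiff.comp h2
  have sU : ContMDiff 𝓘(ℝ, E n) 𝓘(ℝ, ℝ) ∞ U := (sin sxc sxc).sub contMDiff_const
  have sV : ContMDiff 𝓘(ℝ, E n) 𝓘(ℝ, ℝ) ∞ V := (sin sxc sy).sub contMDiff_const
  have csub : ∀ (X : E n → E m) (F : E n → ℝ) (z : E n) (a : ℝ), ContDiffAt ℝ ∞ F z →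
      lap X (fun w => F w - a) z = lap X F z := by
    intro X F z a hF
    have : (fun w => F w - a) = fun w => F w + (-a) := by funext w; rw [sub_eq_add_neg]
    rw [this, lap_add hF contDiffAt_const, lap_const, add_zero]
  have lU : ∀ e ∈ atlas (E n) M, ∀ z ∈ e.target,
      lap (x ∘ e.symm) (U ∘ e.symm) z = 2 * V (e.symm z) := by
    intro e he z hz
    have hL := hN e he
    have hs : ContDiffAt ℝ ∞ (fun w => (x ∘ e.symm) w - c) z := (hL.sX hz).sub contDiffAt_const
    have e1 : U ∘ e.symm = fun w => (inner ℝ ((x ∘ e.symm) w - c) ((x ∘ e.symm) w - c) : ℝ)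
        - u0 := rfl
    rw [e1, csub _ _ _ _ (hs.inner ℝ hs), LDX.lap_u hL hz]
    simp only [hV, hy, Function.comp_apply, LD.yv]
    ring
  have lV : ∀ e ∈ atlas (E n) M, ∀ z ∈ e.target,
      lap (x ∘ e.symm) (V ∘ e.symm) z = (l1 + l2) * V (e.symm z) - l1 * l2 * U (e.symm z) := by
    intro e he z hz
    have hL := hN e he
    have hs : ContDiffAt ℝ ∞ (fun w => (x ∘ e.symm) w - c) z := (hL.sX hz).sub contDiffAt_const
    have e1 : V ∘ e.symm = fun w => (inner ℝ ((x ∘ e.symm) w - c)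
        (LD.yv l1 l2 (x1 ∘ e.symm) (x2 ∘ e.symm) w) : ℝ) - n := rfl
    rw [e1, csub _ _ _ _ (hs.inner ℝ (hL.sy hz)), LDX.lap_v hL hz]
    simp only [hV, hU, hy, Function.comp_apply, LD.yv]
    rw [mul_sub, mul_sub, hu0']
    ring
  -- the spherical case
  by_cases hUz : ∀ p, U p = 0
  · left
    have hxc : ∀ p, (inner ℝ (x p - c) (x p - c) : ℝ) = u0 := fun p => by
      have := hUz p
      simp only [hU] at this
      linarith
    have hd : ∀ p, dist (x p) c = √u0 := by
      intro p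
      rw [dist_eq_norm, ← hxc p, real_inner_self_eq_norm_sq, Real.sqrt_sq (norm_nonneg _)]
    refine ⟨√u0, ?_, hd⟩
    rw [Real.sqrt_pos]
    obtain ⟨p, q, hpq⟩ := h.nonconst1
    by_contra hcon
    have hx : ∀ p, x p = c := by
      intro p
      have h1 := hd p
      rw [Real.sqrt_eq_zero'.2 (not_lt.1 hcon)] at h1
      exact dist_eq_zero.1 h1
    -- then `y = Δ x = 0`, hence `x1 = x2 = 0`
    have hy0 : ∀ p, x1 p + x2 p = 0 := fun p => by
      have h1 := h.decomp p
      rw [hx p] at h1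
      have h2 : c = c + (x1 p + x2 p) := by rw [← add_assoc]; exact h1
      exact (left_eq_add.1 h2)
    -- the differential of `x` vanishes
    set e := chartAt (E n) p with he
    have hz : e p ∈ e.target := e.map_source (mem_chart_source _ p)
    have hinj := h.immersion e (chart_mem_atlas _ _) (e p) hz
    have hconst : x ∘ e.symm = fun _ => c := by funext w; exact hx _
    rw [hconst] at hinj
    simp only [fderiv_fun_const, Pi.zero_apply] at hinj
    obtain ⟨i0⟩ : Nonempty (Fin n) := ⟨⟨0, Nat.pos_of_ne_zero hn⟩⟩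
    have h1 := hinj (a₁ := EuclideanSpace.single i0 (1 : ℝ)) (a₂ := 0) (by simp)
    have h2 := congrArg (fun v : E n => v i0) h1
    simp at h2
  · right
    push Not at hUz
    obtain ⟨p0, hp0⟩ := hUz
    -- the discriminant
    have hdisc : 8 * (l1 * l2) ≤ (l1 + l2) ^ 2 := by
      by_contra hcon
      push Not at hcon
      have hform : ∀ a b : ℝ, a * (2 * a) - b * ((l1 + l2) * a - l1 * l2 * b) =
          2 * (a - (l1 + l2) / 4 * b) ^ 2 + (8 * (l1 * l2) - (l1 + l2) ^ 2) / 8 * b ^ 2 := by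
        intro a b; ring
      have hk : 0 < (8 * (l1 * l2) - (l1 + l2) ^ 2) / 8 := by linarith
      have hg := green_global (x := x) h.smooth h.immersion (U := V) (R := U)
        (LU := fun p => (l1 + l2) * V p - l1 * l2 * U p) (LR := fun p => 2 * V p) sV sU lV lU
        (fun p => by rw [hform]; positivity) p0
      rw [hform] at hg
      have h1 : 0 < (8 * (l1 * l2) - (l1 + l2) ^ 2) / 8 * U p0 ^ 2 := by positivity
      have h2 : 0 ≤ 2 * (V p0 - (l1 + l2) / 4 * U p0) ^ 2 := by positivity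
      linarith
    -- the two roots
    set δ := √((l1 + l2) ^ 2 - 8 * (l1 * l2)) with hδ
    have hδ2 : δ ^ 2 = (l1 + l2) ^ 2 - 8 * (l1 * l2) := Real.sq_sqrt (by linarith)
    have hroot : ∀ ε : ℝ, ε ^ 2 = 1 → ((l1 + l2 + ε * δ) / 2) ^ 2
        - (l1 + l2) * ((l1 + l2 + ε * δ) / 2) + 2 * l1 * l2 = 0 := by
      intro ε hε
      have : ((l1 + l2 + ε * δ) / 2) ^ 2 - (l1 + l2) * ((l1 + l2 + ε * δ) / 2) + 2 * l1 * l2 =
          (ε ^ 2 * δ ^ 2 - ((l1 + l2) ^ 2 - 8 * (l1 * l2))) / 4 := by ring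
      rw [this, hε, hδ2]; ring
    -- location of roots
    have hloc : ∀ μ : ℝ, μ ^ 2 - (l1 + l2) * μ + 2 * l1 * l2 = 0 →
        min l1 l2 < μ ∧ μ < max l1 l2 := by
      intro μ hμ
      have h1 : (μ - l1) * (μ - l2) = -(l1 * l2) := by linear_combination hμ
      have h2 : (μ - l1) * (μ - l2) < 0 := by rw [h1]; linarith
      rcases le_total l1 l2 with hl | hl
      · rw [min_eq_left hl, max_eq_right hl]
        constructor
        · by_contra hc
          push Not at hc
          nlinarith [mul_nonneg (sub_nonneg.2 hc) (sub_nonneg.2 (hc.trans hl))]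
        · by_contra hc
          push Not at hc
          nlinarith [mul_nonneg (sub_nonneg.2 hc) (sub_nonneg.2 (hl.trans hc))]
      · rw [min_eq_right hl, max_eq_left hl]
        constructor
        · by_contra hc
          push Not at hc
          nlinarith [mul_nonneg (sub_nonneg.2 hc) (sub_nonneg.2 (hc.trans hl))]
        · by_contra hc
          push Not at hc
          nlinarith [mul_nonneg (sub_nonneg.2 hc) (sub_nonneg.2 (hl.trans hc))]
    have hsqrt2 : √2 ^ 2 = (2 : ℝ) := Real.sq_sqrt (by norm_num)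
    have hs2 : 0 < √(2 : ℝ) := Real.sqrt_pos.2 (by norm_num)
    have hratio : (3 + 2 * √2) * min l1 l2 ≤ max l1 l2 := by
      have key : ∀ a b : ℝ, 0 < a → a ≤ b → 8 * (a * b) ≤ (a + b) ^ 2 →
          (3 + 2 * √2) * a ≤ b := by
        intro a b ha hab hd
        by_contra hc
        push Not at hc
        have h1 : (b - (3 + 2 * √2) * a) * (b - (3 - 2 * √2) * a) =
            (a + b) ^ 2 - 8 * (a * b) := by
          linear_combination (-4 * a ^ 2) * hsqrt2
        have h2 : 0 < b - (3 - 2 * √2) * a := by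
          have : 1 < √(2 : ℝ) := by nlinarith
          nlinarith
        have h3 : (b - (3 + 2 * √2) * a) * (b - (3 - 2 * √2) * a) < 0 :=
          mul_neg_of_neg_of_pos (by linarith) h2
        linarith
      rcases le_total l1 l2 with hl | hl
      · rw [min_eq_left hl, max_eq_right hl]
        exact key l1 l2 p1 hl hdisc
      · rw [min_eq_right hl, max_eq_left hl]
        exact key l2 l1 p2 hl (by nlinarith)
    refine ⟨lt_min p1 p2, hratio, ?_⟩
    -- eigenfunctions
    have heig : ∀ μ : ℝ, μ ^ 2 - (l1 + l2) * μ + 2 * l1 * l2 = 0 → ∀ e ∈ atlas (E n) M,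
        ∀ z ∈ e.target, lap (x ∘ e.symm) ((fun p => V p + (μ - (l1 + l2)) / 2 * U p) ∘ e.symm) z
          = μ * (fun p => V p + (μ - (l1 + l2)) / 2 * U p) (e.symm z) := by
      intro μ hμ e he z hz
      have e1 : (fun p => V p + (μ - (l1 + l2)) / 2 * U p) ∘ e.symm =
          fun w => (V ∘ e.symm) w + ((μ - (l1 + l2)) / 2) • (U ∘ e.symm) w := rfl
      have sV' := chart_smooth sV he hz
      have sU' := chart_smooth sU he hz
      rw [e1, lap_add sV' (sU'.const_smul _), lap_smul _ sU', lV e he z hz, lU e he z hz,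
        smul_eq_mul]
      simp only
      linear_combination (-(1 / 2) * U (e.symm z)) * hμ
    have hsm : ∀ t : ℝ, ContMDiff 𝓘(ℝ, E n) 𝓘(ℝ, ℝ) ∞ fun p => V p + t * U p := fun t =>
      sV.add (contMDiff_const.mul sU)
    -- a constant eigenfunction vanishes
    have hconst0 : ∀ μ : ℝ, μ ≠ 0 → ∀ f : M → ℝ, (∀ e ∈ atlas (E n) M, ∀ z ∈ e.target,
        lap (x ∘ e.symm) (f ∘ e.symm) z = μ * f (e.symm z)) → (∀ p q, f p = f q) →
        ∀ p, f p = 0 := by
      intro μ hμ f hf hc p
      set e := chartAt (E n) p with he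
      have hz : e p ∈ e.target := e.map_source (mem_chart_source _ p)
      have h1 := hf e (chart_mem_atlas _ _) (e p) hz
      have h2 : f ∘ e.symm = fun _ => f p := by funext w; exact hc _ _
      rw [h2, lap_const, e.left_inv (mem_chart_source _ p)] at h1
      exact (mul_eq_zero.1 h1.symm).resolve_left hμ
    have hμ0 : ∀ μ : ℝ, μ ^ 2 - (l1 + l2) * μ + 2 * l1 * l2 = 0 → μ ≠ 0 := by
      rintro μ hμ rfl
      nlinarith
    set μp := (l1 + l2 + 1 * δ) / 2 with hμp
    set μm := (l1 + l2 + (-1) * δ) / 2 with hμm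
    have rp := hroot 1 (by norm_num)
    have rm := hroot (-1) (by norm_num)
    rw [← hμp] at rp
    rw [← hμm] at rm
    by_cases c1 : ∀ p q, (fun p => V p + (μp - (l1 + l2)) / 2 * U p) p =
        (fun p => V p + (μp - (l1 + l2)) / 2 * U p) q
    · by_cases c2 : ∀ p q, (fun p => V p + (μm - (l1 + l2)) / 2 * U p) p =
          (fun p => V p + (μm - (l1 + l2)) / 2 * U p) q
      · have z1 := hconst0 μp (hμ0 μp rp) _ (heig μp rp) c1
        have z2 := hconst0 μm (hμ0 μm rm) _ (heig μm rm) c2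
        have hd0 : δ = 0 := by
          have a1 := z1 p0
          have a2 := z2 p0
          have : δ / 2 * U p0 = 0 := by
            have h3 : (μp - μm) / 2 * U p0 = 0 := by linear_combination a1 - a2
            have h4 : (μp - μm) / 2 = δ / 2 := by rw [hμp, hμm]; ring
            rwa [h4] at h3
          rcases mul_eq_zero.1 this with h5 | h5
          · linarith
          · exact absurd h5 hp0
        -- `U` is an eigenfunction
        have hμe : μp = (l1 + l2) / 2 := by rw [hμp, hd0]; ring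
        refine ⟨μp, U, (hloc μp rp).1, (hloc μp rp).2, rp, sU, ?_, fun e he z hz => ?_⟩
        · by_contra hc
          push Not at hc
          refine hp0 (hconst0 μp (hμ0 μp rp) U (fun e he z hz => ?_) hc p0)
          rw [lU e he z hz]
          have := z1 (e.symm z)
          rw [hμe] at this ⊢
          linear_combination 2 * this
        · rw [lU e he z hz]
          have := z1 (e.symm z)
          rw [hμe] at this ⊢
          linear_combination 2 * this
      · push Not at c2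
        exact ⟨μm, _, (hloc μm rm).1, (hloc μm rm).2, rm, hsm _, c2, heig μm rm⟩
    · push Not at c1
      exact ⟨μp, _, (hloc μp rp).1, (hloc μp rp).2, rp, hsm _, c1, heig μp rp⟩

end

end Pool.Agent.Lib_helper25.DA
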